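import Pool.Agent.Q145.LE.In
import Pool.Agent.Q145.LQ.All

/-!
# Project LE: assembly
-/

set_option autoImplicit false

namespace Pool.Agent.Q145.LE

open Finset Filter
open Pool.Agent.Q145.SZ Pool.Agent.Q145.LQ
open Pool.Agent.Q145.LS (SUFP SUFc case1 case2 dich)

/-- the variance for every degree -/
theorem vbe (d : ℕ) : ∃ a₀ κ : ℕ, 64 ≤ κ ∧ VBE d a₀ κ := by
  obtain ⟨C, hC, hl⟩ := Pool.Agent.Q38.LQ.t_LOCQ t_ABS d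
  obtain ⟨l1, l2⟩ := Pool.Agent.Q177.LQ.t_LAWQ d C hC (t_CRTQ d C hC hl)
  exact var_boundE hC l1 l2 t_MOM1Q t_MOM2Q Pool.Agent.Q177.LQ.t_NOK (hsqE (jpolyE sq2)) t_ESQ t_SIEVE t_CCB
    Pool.Agent.Q111.SZ.t_PWB t_US

theorem suf : SUFP PLE := by
  obtain ⟨a₀, κ, hκ, hv⟩ := vbe 1
  exact sufE hκ hv

theorem mainE1 (A ε : ℝ) (hε : 0 < ε) : ∀ᶠ X : ℕ in atTop, ∀ Q : ℕ, (Q : ℝ) ≤ A * Real.log (Real.log X) → PLE X Q ε :=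
  case1 zr' Pool.Agent.Q111.SZ.t_PWB Pool.Agent.Q177.SZ.t_SIEG suf A ε hε

theorem mainE2 : ∃ c : ℝ, 0 < c ∧ ∀ ε : ℝ, 0 < ε → ∃ᶠ X : ℕ in atTop, ∀ Q : ℕ, (Q : ℝ) ≤ c * (Real.log X / Real.log (Real.log X)) → PLE X Q ε :=
  case2 Pool.Agent.Q111.SZ.t_PWB suf good'

theorem mainE3 : ∃ c C : ℝ, 0 < c ∧ 0 < C ∧ ∀ ε : ℝ, 0 < ε → ∀ᶠ X : ℕ in atTop,
      (∀ (r : ℕ) [NeZero r], 1 < r → (r : ℝ) ≤ Real.exp (Real.log X / Real.log (Real.log X)) → ∀ χ : DirichletCharacter ℂ r, χ.IsPrimitive → χ ^ 2 = 1 →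
        ∀ β : ℝ, χ.LFunction β = 0 → β ≤ 1 - C * (Real.log (Real.log X) / Real.log X)) →
      ∀ Q : ℕ, (Q : ℝ) ≤ c * (Real.log X / Real.log (Real.log X)) → PLE X Q ε :=
  dich zr' Pool.Agent.Q111.SZ.t_PWB suf

end Pool.Agent.Q145.LE
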