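import Pool.Agent.Q145.LE.Sys
import Pool.Agent.Q261.LS.FARS
import Pool.Agent.Q150.LQ.FARQ

/-!
# Project LE: the large primes in the singular series of linear forms (adapted from `Pool/Agent/Q261/LS/FARS.lean`)
-/

set_option autoImplicit false

namespace Pool.Agent.Q145.LE

open Finset Filter
open Pool.Agent.Q145.SZ Pool.Agent.Q145.LQ Pool.Agent.Q261.SZ

/-- the constant term -/
def cf (q : Polynomial ℤ) (s : ℕ) : ℤ := q.coeff 0 + s

theorem eval_lin {q : Polynomial ℤ} (h : q.natDegree = 1) (n : ℤ) : q.eval n = q.coeff 1 * n + q.coeff 0 := by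
  have h1 := Polynomial.eq_X_add_C_of_natDegree_le_one h.le
  conv_lhs => rw [h1]
  simp

theorem lc_lin {q : Polynomial ℤ} (h : q.natDegree = 1) : q.leadingCoeff = q.coeff 1 := by
  unfold Polynomial.leadingCoeff
  rw [h]

theorem c1_ne {q : Polynomial ℤ} (h : q.natDegree = 1) : q.coeff 1 ≠ 0 := by
  rw [← lc_lin h, Ne, Polynomial.leadingCoeff_eq_zero]
  rintro rfl
  simp at h

/-- the roots modulo `p` -/
def rtl {K : ℕ} (q : Fin K → Polynomial ℤ) (s : Fin K → ℕ) (p : ℕ) (i : Fin K) : ℕ :=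
  (-((cf (q i) (s i) : ℤ) : ZMod p) * (((q i).coeff 1 : ℤ) : ZMod p)⁻¹).val

theorem rtl_spec {K : ℕ} {q : Fin K → Polynomial ℤ} (hq : ∀ i, (q i).natDegree = 1) (s : Fin K → ℕ) {p : ℕ} (hp : p.Prime)
    (ha : ∀ i, ¬ (p : ℤ) ∣ (q i).coeff 1) (i : Fin K) (n : ℕ) (hn : n < p) :
    (p : ℤ) ∣ (q i).eval (n : ℤ) + s i ↔ n = rtl q s p i := by
  haveI := Fact.mk hp
  have h0 : (((q i).coeff 1 : ℤ) : ZMod p) ≠ 0 := by
    rw [Ne, ZMod.intCast_zmod_eq_zero_iff_dvd]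
    exact ha i
  have e : (q i).eval (n : ℤ) + s i = (q i).coeff 1 * n + cf (q i) (s i) := by
    rw [eval_lin (hq i)]
    unfold cf
    ring
  rw [e, ← ZMod.intCast_zmod_eq_zero_iff_dvd]
  push_cast
  unfold rtl
  constructor
  · intro h
    have h1 : (n : ZMod p) = -((cf (q i) (s i) : ℤ) : ZMod p) * (((q i).coeff 1 : ℤ) : ZMod p)⁻¹ := by
      field_simp
      linear_combination h
    rw [← h1, ZMod.val_natCast_of_lt hn]
  · intro h
    have h1 : (n : ZMod p) = -((cf (q i) (s i) : ℤ) : ZMod p) * (((q i).coeff 1 : ℤ) : ZMod p)⁻¹ := by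
      rw [h, ZMod.natCast_zmod_val]
    rw [h1]
    field_simp
    ring

theorem rtl_lt {K : ℕ} (q : Fin K → Polynomial ℤ) (s : Fin K → ℕ) {p : ℕ} (hp : p.Prime) (i : Fin K) : rtl q s p i < p := by
  haveI := Fact.mk hp
  exact ZMod.val_lt _

theorem nuQ_lin {K : ℕ} {q : Fin K → Polynomial ℤ} (hq : ∀ i, (q i).natDegree = 1) (s : Fin K → ℕ) {p : ℕ} (hp : p.Prime)
    (ha : ∀ i, ¬ (p : ℤ) ∣ (q i).coeff 1) : nuQ q s p = nu (rtl q s p) p := by
  unfold nuQ nu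
  congr 1
  ext n
  rw [mem_filter, mem_range, mem_image]
  constructor
  · rintro ⟨hn, i, h⟩
    refine ⟨i, mem_univ _, ?_⟩
    rw [Nat.mod_eq_of_lt (rtl_lt q s hp i)]
    exact ((rtl_spec hq s hp ha i n hn).1 h).symm
  · rintro ⟨i, -, h⟩
    rw [Nat.mod_eq_of_lt (rtl_lt q s hp i)] at h
    have hn : n < p := by rw [← h]; exact rtl_lt q s hp i
    exact ⟨hn, i, (rtl_spec hq s hp ha i n hn).2 h.symm⟩

theorem locQ_lin {K : ℕ} {q : Fin K → Polynomial ℤ} (hq : ∀ i, (q i).natDegree = 1) (s : Fin K → ℕ) {p : ℕ} (hp : p.Prime)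
    (ha : ∀ i, ¬ (p : ℤ) ∣ (q i).coeff 1) : locQ q s p = loc (rtl q s p) p := by
  unfold locQ loc
  rw [nuQ_lin hq s hp ha]

/-- the determinant of two forms -/
def dtl {K : ℕ} (q : Fin K → Polynomial ℤ) (s : Fin K → ℕ) (i j : Fin K) : ℤ :=
  (q i).coeff 1 * cf (q j) (s j) - (q j).coeff 1 * cf (q i) (s i)

theorem dvd_dtl {K : ℕ} {q : Fin K → Polynomial ℤ} (hq : ∀ i, (q i).natDegree = 1) (s : Fin K → ℕ) {p : ℕ} (hp : p.Prime)
    (ha : ∀ i, ¬ (p : ℤ) ∣ (q i).coeff 1) (i j : Fin K) (h : rtl q s p i % p = rtl q s p j % p) : (p : ℤ) ∣ dtl q s i j := by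
  rw [Nat.mod_eq_of_lt (rtl_lt q s hp _), Nat.mod_eq_of_lt (rtl_lt q s hp _)] at h
  have h1 := (rtl_spec hq s hp ha i _ (rtl_lt q s hp i)).2 rfl
  have h2 := (rtl_spec hq s hp ha j _ (rtl_lt q s hp i)).2 h
  have h3 : dtl q s i j = (q i).coeff 1 * ((q j).eval (rtl q s p i : ℤ) + s j) - (q j).coeff 1 * ((q i).eval (rtl q s p i : ℤ) + s i) := by
    rw [eval_lin (hq i), eval_lin (hq j)]
    unfold dtl cf
    ring
  rw [h3]
  exact dvd_sub (h2.mul_left _) (h1.mul_left _)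

theorem dtl_le {K : ℕ} {q : Fin K → Polynomial ℤ} {s : Fin K → ℕ} {M : ℕ} (ha : ∀ i, |(q i).coeff 1| ≤ M)
    (hs : ∀ i, |cf (q i) (s i)| ≤ M) (i j : Fin K) : (dtl q s i j).natAbs ≤ 2 * M ^ 2 := by
  have h1 : |dtl q s i j| ≤ 2 * (M : ℤ) ^ 2 := by
    unfold dtl
    have hM0 : (0 : ℤ) ≤ M := by positivity
    have e1 : |(q i).coeff 1 * cf (q j) (s j)| ≤ (M : ℤ) * M := by
      rw [abs_mul]
      exact mul_le_mul (ha i) (hs j) (abs_nonneg _) hM0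
    have e2 : |(q j).coeff 1 * cf (q i) (s i)| ≤ (M : ℤ) * M := by
      rw [abs_mul]
      exact mul_le_mul (ha j) (hs i) (abs_nonneg _) hM0
    calc |(q i).coeff 1 * cf (q j) (s j) - (q j).coeff 1 * cf (q i) (s i)|
        ≤ |(q i).coeff 1 * cf (q j) (s j)| + |(q j).coeff 1 * cf (q i) (s i)| := abs_sub _ _
      _ ≤ (M : ℤ) * M + M * M := add_le_add e1 e2
      _ = 2 * (M : ℤ) ^ 2 := by ring
  rw [Int.abs_eq_natAbs] at h1
  exact_mod_cast h1

theorem sum_kappaE {K : ℕ} {q : Fin K → Polynomial ℤ} (hq : ∀ i, (q i).natDegree = 1) (s : Fin K → ℕ) {M Y w : ℕ} (hM : 3 ≤ M) (hY : 3 ≤ Y)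
    (hl : ∀ p : ℕ, p.Prime → Y < p → ∀ i, ¬ (p : ℤ) ∣ (q i).coeff 1) (haM : ∀ i, |(q i).coeff 1| ≤ M)
    (hs : ∀ i, |cf (q i) (s i)| ≤ M) (hnd : ∀ i j, i ≠ j → dtl q s i j ≠ 0) :
    ∑ p ∈ (Ioc Y w).filter Nat.Prime, ((K : ℝ) - nu (rtl q s p) p) / p ≤ 3 * (K : ℝ) ^ 2 * Real.log M / Y := by
  classical
  have hY0 : (0 : ℝ) < Y := by exact_mod_cast (show 0 < Y by omega)
  have hM0 : (0 : ℝ) < M := by exact_mod_cast (show 0 < M by omega)
  have hlogM : 0 ≤ Real.log M := Real.log_natCast_nonneg M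
  have h1 : ∀ p ∈ (Ioc Y w).filter Nat.Prime, ((K : ℝ) - nu (rtl q s p) p) / p ≤
      (((univ : Finset (Fin K × Fin K)).filter
        fun x => x.1 ≠ x.2 ∧ (p : ℤ) ∣ dtl q s x.1 x.2).card : ℝ) / Y := by
    intro p hp
    rw [mem_filter, mem_Ioc] at hp
    have hc := collide (rtl q s p) p
    have hc2 : ((univ : Finset (Fin K × Fin K)).filter
        fun x => x.1 ≠ x.2 ∧ rtl q s p x.1 % p = rtl q s p x.2 % p).card ≤
        ((univ : Finset (Fin K × Fin K)).filter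
        fun x => x.1 ≠ x.2 ∧ (p : ℤ) ∣ dtl q s x.1 x.2).card := by
      refine card_le_card fun x hx => ?_
      rw [mem_filter] at hx ⊢
      exact ⟨hx.1, hx.2.1, dvd_dtl hq s hp.2 (hl p hp.2 hp.1.1) _ _ hx.2.2⟩
    have hc' : (K : ℝ) ≤ nu (rtl q s p) p + ((univ : Finset (Fin K × Fin K)).filter
        fun x => x.1 ≠ x.2 ∧ (p : ℤ) ∣ dtl q s x.1 x.2).card := by
      have hc3 := hc.trans (Nat.add_le_add_left hc2 _)
      exact_mod_cast hc3
    have hYp : (Y : ℝ) ≤ p := by exact_mod_cast hp.1.1.le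
    refine div_le_div₀ (Nat.cast_nonneg _) (by linarith) hY0 hYp
  refine (sum_le_sum h1).trans ?_
  rw [← sum_div]
  refine div_le_div_of_nonneg_right ?_ hY0.le
  have h2 : ∑ p ∈ (Ioc Y w).filter Nat.Prime, (((univ : Finset (Fin K × Fin K)).filter
        fun x => x.1 ≠ x.2 ∧ (p : ℤ) ∣ dtl q s x.1 x.2).card : ℝ) =
      ∑ x : Fin K × Fin K, ((((Ioc Y w).filter Nat.Prime).filter
        fun p : ℕ => x.1 ≠ x.2 ∧ (p : ℤ) ∣ dtl q s x.1 x.2).card : ℝ) := by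
    have h3 : ∀ p : ℕ, (((univ : Finset (Fin K × Fin K)).filter
        fun x => x.1 ≠ x.2 ∧ (p : ℤ) ∣ dtl q s x.1 x.2).card : ℝ) =
        ∑ x : Fin K × Fin K, if x.1 ≠ x.2 ∧ (p : ℤ) ∣ dtl q s x.1 x.2 then (1 : ℝ) else 0 := by
      intro p
      rw [sum_boole]
    simp only [h3]
    rw [sum_comm]
    refine sum_congr rfl fun x _ => ?_
    rw [sum_boole]
  rw [h2]
  have h3 : ∀ x ∈ (univ : Finset (Fin K × Fin K)), ((((Ioc Y w).filter Nat.Prime).filter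
        fun p : ℕ => x.1 ≠ x.2 ∧ (p : ℤ) ∣ dtl q s x.1 x.2).card : ℝ) ≤ 3 * Real.log M := by
    intro x _
    by_cases hx : x.1 = x.2
    · rw [filter_false_of_mem]
      · rw [card_empty, Nat.cast_zero]
        positivity
      · intro p _ h
        exact h.1 hx
    · have hne : (dtl q s x.1 x.2).natAbs ≠ 0 := by
        rw [Int.natAbs_ne_zero]
        exact hnd _ _ hx
      have h4 := card_primes (dtl q s x.1 x.2).natAbs hne (Y := (Y : ℝ))
        (by exact_mod_cast hY) (((Ioc Y w).filter Nat.Prime).filter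
        fun p : ℕ => x.1 ≠ x.2 ∧ (p : ℤ) ∣ dtl q s x.1 x.2) (fun p hp => by
          rw [mem_filter, mem_filter, mem_Ioc] at hp
          exact ⟨hp.1.2, Int.natCast_dvd.1 hp.2.2, by exact_mod_cast hp.1.1.1.le⟩)
      refine h4.trans ?_
      have h5 : Real.log ((dtl q s x.1 x.2).natAbs : ℝ) ≤ Real.log ((M : ℝ) ^ 3) := by
        refine Real.log_le_log (by exact_mod_cast Nat.pos_of_ne_zero hne) ?_
        have h6 := dtl_le (M := M) haM hs x.1 x.2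
        have h7 : 2 * M ^ 2 ≤ M ^ 3 := by nlinarith [Nat.zero_le (M ^ 2)]
        exact_mod_cast h6.trans h7
      rw [Real.log_pow] at h5
      exact_mod_cast h5
  refine (sum_le_card_nsmul _ _ _ h3).trans ?_
  rw [card_univ, Fintype.card_prod, Fintype.card_fin, nsmul_eq_mul]
  push_cast
  exact le_of_eq (by ring)

theorem sum_logE {K : ℕ} {q : Fin K → Polynomial ℤ} (hq : ∀ i, (q i).natDegree = 1) (s : Fin K → ℕ) {M Y w : ℕ} (hM : 3 ≤ M) (hY : 8 * (K + 1) ^ 2 ≤ Y)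
    (hl : ∀ p : ℕ, p.Prime → Y < p → ∀ i, ¬ (p : ℤ) ∣ (q i).coeff 1) (haM : ∀ i, |(q i).coeff 1| ≤ M)
    (hs : ∀ i, |cf (q i) (s i)| ≤ M) (hnd : ∀ i j, i ≠ j → dtl q s i j ≠ 0) :
    ∑ p ∈ (Ioc Y w).filter Nat.Prime, |Real.log (locQ q s p)| ≤ 8 * (K : ℝ) ^ 2 * Real.log M / Y := by
  have hlog : 1 ≤ Real.log M := by
    rw [Real.le_log_iff_exp_le (by exact_mod_cast (show 0 < M by omega))]
    have : (3 : ℝ) ≤ M := by exact_mod_cast hM
    linarith [Real.exp_one_lt_d9]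
  have h1 : ∀ p ∈ (Ioc Y w).filter Nat.Prime, |Real.log (locQ q s p)| ≤
      ((K : ℝ) - nu (rtl q s p) p) / p + 2 * (K : ℝ) ^ 2 * ((p : ℝ) ^ 2)⁻¹ := by
    intro p hp
    rw [mem_filter, mem_Ioc] at hp
    have h2 : 2 * K ≤ p := by nlinarith [hp.1.1]
    have h3 : K < p := by
      have := hp.2.two_le
      omega
    rw [← div_eq_mul_inv, locQ_lin hq s hp.2 (hl p hp.2 hp.1.1)]
    exact (log_loc (rtl q s p) hp.2.two_le h2 (lt_of_le_of_lt (nu_le (rtl q s p) p) h3)).2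
  refine (sum_le_sum h1).trans ?_
  have hY3 : 3 ≤ Y := by
    have : 1 ≤ (K + 1) ^ 2 := Nat.one_le_pow _ _ (by omega)
    omega
  have hY0 : (0 : ℝ) < Y := by exact_mod_cast (show 0 < Y by omega)
  rw [sum_add_distrib, ← mul_sum]
  have h2 := sum_kappaE hq s (w := w) hM hY3 hl haM hs hnd
  have h3 := sum_inv_sq Y w (by omega) ((Ioc Y w).filter Nat.Prime) (filter_subset _ _)
  have h4 : 2 * (K : ℝ) ^ 2 * ∑ p ∈ (Ioc Y w).filter Nat.Prime, ((p : ℝ) ^ 2)⁻¹ ≤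
      2 * (K : ℝ) ^ 2 * Real.log M / Y := by
    calc 2 * (K : ℝ) ^ 2 * ∑ p ∈ (Ioc Y w).filter Nat.Prime, ((p : ℝ) ^ 2)⁻¹
        ≤ 2 * (K : ℝ) ^ 2 * (Y : ℝ)⁻¹ := by gcongr
      _ ≤ 2 * (K : ℝ) ^ 2 * (Real.log M * (Y : ℝ)⁻¹) := by
          gcongr
          exact le_mul_of_one_le_left (by positivity) hlog
      _ = _ := by ring
  have h5 : 3 * (K : ℝ) ^ 2 * Real.log M / Y + 2 * (K : ℝ) ^ 2 * Real.log M / Y ≤
      8 * (K : ℝ) ^ 2 * Real.log M / Y := by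
    rw [← add_div]
    gcongr
    nlinarith [mul_nonneg (sq_nonneg (K : ℝ)) (zero_le_one.trans hlog)]
  linarith

/-- convergence of the singular series of linear forms -/
theorem farE {K : ℕ} {q : Fin K → Polynomial ℤ} (hq : ∀ i, (q i).natDegree = 1) (s : Fin K → ℕ) {M Y : ℕ} (hM : 3 ≤ M) (hY : 8 * (K + 1) ^ 2 ≤ Y)
    (hl : ∀ p : ℕ, p.Prime → Y < p → ∀ i, ¬ (p : ℤ) ∣ (q i).coeff 1) (haM : ∀ i, |(q i).coeff 1| ≤ M)
    (hs : ∀ i, |cf (q i) (s i)| ≤ M) (hnd : ∀ i j, i ≠ j → dtl q s i j ≠ 0) (hA : AdmQ q s) :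
    0 < singQ q s ∧ Tendsto (singPQ q s) atTop (nhds (singQ q s)) ∧
      |Real.log (singQ q s / singPQ q s Y)| ≤ 8 * (K : ℝ) ^ 2 * Real.log M / Y := by
  have hloc : ∀ p : ℕ, p.Prime → Y < p → 0 < locQ q s p := fun p hp _ => Pool.Agent.Q150.LQ.locQ_pos hp (hA p hp)
  obtain ⟨L, hL0, hL1, hL2⟩ := Pool.Agent.Q261.LS.far_abs (locQ q s) Y (8 * (K : ℝ) ^ 2 * Real.log M / Y) hloc
    (Pool.Agent.Q150.LQ.singPQ_pos hA Y) (fun n => sum_logE hq s hM hY hl haM hs hnd)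
  have hlim : Tendsto (singPQ q s) atTop (nhds L) := hL1
  have hsing : singQ q s = L := hlim.limUnder_eq
  rw [hsing]
  exact ⟨hL0, hlim, hL2⟩

/-- convergence for a fixed system -/
theorem convE {K : ℕ} {q : Fin K → Polynomial ℤ} (hq : ∀ i, (q i).natDegree = 1) (s : Fin K → ℕ)
    (hnd : ∀ i j, i ≠ j → dtl q s i j ≠ 0) (hA : AdmQ q s) :
    Tendsto (singPQ q s) atTop (nhds (singQ q s)) ∧ 0 < singQ q s := by
  set M : ℕ := 3 + ∑ i, (((q i).coeff 1).natAbs + (cf (q i) (s i)).natAbs) with hM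
  have hle : ∀ i, ((q i).coeff 1).natAbs + (cf (q i) (s i)).natAbs ≤ M := fun i => by
    have : ((q i).coeff 1).natAbs + (cf (q i) (s i)).natAbs ≤ ∑ i, (((q i).coeff 1).natAbs + (cf (q i) (s i)).natAbs) :=
      Finset.single_le_sum (f := fun i => ((q i).coeff 1).natAbs + (cf (q i) (s i)).natAbs) (fun _ _ => Nat.zero_le _) (mem_univ i)
    omega
  set Y : ℕ := 8 * (K + 1) ^ 2 + M with hY
  have h := farE hq s (M := M) (Y := Y) (by omega) (by omega) (fun p _ hp i hd => by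
      have h1 := Int.natCast_dvd.1 hd
      have h2 := Nat.le_of_dvd (Int.natAbs_pos.2 (c1_ne (hq i))) h1
      have h3 := hle i
      omega) (fun i => by
        rw [Int.abs_eq_natAbs]
        have := hle i
        exact_mod_cast (show ((q i).coeff 1).natAbs ≤ M by omega)) (fun i => by
        rw [Int.abs_eq_natAbs]
        have := hle i
        exact_mod_cast (show (cf (q i) (s i)).natAbs ≤ M by omega)) hnd hA
  exact ⟨h.2.1, h.1⟩

end Pool.Agent.Q145.LE
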