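import Pool.Agent.Q145.LE.Va

/-!
# Project LE: from the variance to the formula (adapted from `Pool/Agent/Q145/LQ/Fin.lean`)
-/

set_option autoImplicit false

namespace Pool.Agent.Q145.LE

open Finset Filter
open Pool.Agent.Q145.SZ Pool.Agent.Q145.LQ

open Classical in
theorem hls_boundE {d a₀ κ : ℕ} (hκ : 64 ≤ κ) (vb : VBE d a₀ κ) (mbs : S_MBQ) (pb : S_PWB) :
    ∀ ε : ℝ, 0 < ε → ∃ M : ℝ, 64 ≤ M ∧ ∀ (z Y X K : ℕ) (H : Fin K → ℕ) (q : Fin K → Polynomial ℤ) (D : Fin K → Finset ℕ), M ≤ Real.log (Real.log X) →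
      64 * Real.log (Real.log X) ≤ z → (κ : ℝ) * z * Real.log (Real.log X) ≤ Real.log Y → Y ≤ X → 32 * (d + 1) * (K + 1) ≤ z → SysE d z Y X H q →
      (∀ i, H1Q (2 * (a₀ + 11)) z (H i) ∧ H2D (2 * (a₀ + 11)) z (H i) (D i)) →
      (((exq Y q D).card : ℝ) ≤ (Y : ℝ) ^ 2 / (PW z : ℝ) ^ (2 * (a₀ + 8))) →
      ∀ S : (Fin K → ℕ) → ℝ, NearQ z H q S (min ε 1 / 16) (ε / 8) → HLQ Y H q S ε := by
  intro ε hε
  set e : ℝ := min ε 1 / 16 with he
  have hε1 : min ε 1 ≤ 1 := min_le_right _ _
  have hεε : min ε 1 ≤ ε := min_le_left _ _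
  have hε0 : 0 < min ε 1 := by positivity
  have he0 : 0 < e := by positivity
  obtain ⟨M₁, hM₁, hvb⟩ := vb (e ^ 2 * (ε / 8)) (by positivity)
  set M : ℝ := 64 + M₁ + 1 / e + 3 with hM
  have q4 : 0 < 1 / e := by positivity
  have hM64 : 64 ≤ M := by linarith
  have hM1 : 1 ≤ M := by linarith
  refine ⟨M, hM64, ?_⟩
  intro z Y X K H q D hX hz hzY hYX hK hS hIN hex S hnear
  have hv := hvb z Y X K H q D (by linarith) hz hzY hYX hK hS hIN hex
  have hlpos : 0 ≤ (z : ℝ) * Real.log (Real.log X) := by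
    have : 0 ≤ Real.log (Real.log X) := by linarith
    positivity
  have hκr : (64 : ℝ) ≤ κ := by exact_mod_cast hκ
  have hzY' : 64 * z * Real.log (Real.log X) ≤ Real.log Y := by nlinarith
  obtain ⟨hL0, hLM, hzM, hzL, hzl, hXe, hYe, hLe, hl64, hlL, hYXl⟩ := elemQ hM64 hX hYX hz hzY'
  have hM0 : 0 < M := by linarith
  have hz0 : (0 : ℝ) < z := by linarith
  have hz64 : 64 ≤ z := by
    have : (64 : ℝ) ≤ z := by linarith
    exact_mod_cast this
  have hXL : Real.log X ≤ X := by
    have := Real.add_one_le_exp (Real.log X)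
    rw [← hXe] at this; linarith
  have hX3 : 3 ≤ X := by
    have : (3 : ℝ) ≤ X := by linarith
    exact_mod_cast this
  have hX0 : (0 : ℝ) < X := by linarith
  have hY0 : (0 : ℝ) < Y := by rw [hYe]; exact Real.exp_pos _
  have hWe : (PW z : ℝ) ≤ Real.exp (2 * z) := PW_le pb z
  have hKz' : (32 : ℝ) * (d + 1) * (K + 1) ≤ z := by exact_mod_cast hK
  have hd0 : (0 : ℝ) ≤ d := by positivity
  have hK0 : (0 : ℝ) ≤ K := by positivity
  have hKz : (32 : ℝ) * (K + 1) ≤ z := by nlinarith [mul_nonneg hd0 hK0]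
  have hdK : d * K + 1 ≤ z := by
    have : 32 * (d + 1) * (K + 1) = 32 * (d * K) + 32 * d + 32 * K + 32 := by ring
    omega
  have h8 : 8 * (K + 1) * PW z ≤ X := by
    have : (8 * ((K : ℝ) + 1)) * PW z ≤ X := by
      calc (8 * ((K : ℝ) + 1)) * PW z ≤ Real.exp z * Real.exp (2 * z) := by
            gcongr
            have : (z : ℝ) + 1 ≤ Real.exp z := Real.add_one_le_exp _
            linarith
        _ = Real.exp (3 * z) := by rw [← Real.exp_add]; ring_nf
        _ ≤ Real.exp (Real.log X) := Real.exp_le_exp.2 (by linarith)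
        _ = X := hXe.symm
    exact_mod_cast this
  have hXH : ∀ i, X ≤ H i := fun i => (hS.scale i).1
  have hpow : ∏ i, Real.log (3 * H i) ≤ (∏ i, Real.log (H i)) * (1 + e) := by
    have h5 : (K : ℝ) * (2 / Real.log X) ≤ 1 / (16 * M) := by
      have h6 : 16 * M * K ≤ Real.log X / 2 := by
        have h7 : 64 * ((z : ℝ) * M) ≤ Real.log X := by
          have : (z : ℝ) * M ≤ z * Real.log (Real.log X) := by gcongr
          linarith
        have h9 : M * K ≤ M * (z / 32) := by
          apply mul_le_mul_of_nonneg_left _ hM0.le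
          linarith
        nlinarith
      rw [← mul_div_assoc, div_le_div_iff₀ hL0 (by positivity)]
      nlinarith
    have h6 : 1 / (16 * M) ≤ e / 2 := by
      rw [div_le_div_iff₀ (by positivity) (by norm_num)]
      have h7 : 1 / e ≤ M := by linarith
      rw [div_le_iff₀ he0] at h7
      nlinarith
    have he1 : e ≤ 1 := by rw [he]; linarith
    refine (prod_log_leQ hL0 hX0 hXH le_rfl).trans ?_
    have h7 : 0 ≤ ∏ i, Real.log (H i) := by
      apply prod_nonneg
      intro i _
      exact Real.log_natCast_nonneg _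
    apply mul_le_mul_of_nonneg_left _ h7
    refine (one_add_pow_le (K := K) (by positivity) (h5.trans (by linarith))).trans ?_
    linarith
  -- apply TRANS
  obtain ⟨E, hE⟩ : ∃ E : (Fin K → ℕ) → Prop, ∀ s, E s ↔ ¬ (|cntQ Y q s * ∏ i, Real.log (H i) - S s * Y| ≤ ε * (S s * Y)) :=
    ⟨_, fun _ => Iff.rfl⟩
  have hfin : ∑ b ∈ AdQ (PW z) q, (((SbQ H b).filter fun s => E s).card : ℝ) /
      (SbQ H b).card ≤ (ε / 4) * (AdQ (PW z) q).card := by
    have hb : ∀ b ∈ AdQ (PW z) q, (((SbQ H b).filter fun s => E s).card : ℝ) /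
        (SbQ H b).card ≤ (e ^ 2)⁻¹ * ((∑ s ∈ SbQ H b, (wcQ Y q s / MbQ Y q b - 1) ^ 2) / ((SbQ H b).card : ℝ)) + ε / 8 := by
      intro b hb
      rcases Nat.eq_zero_or_pos (SbQ H b).card with h0 | h0
      · rw [h0]; simp; positivity
      have h0' : (0 : ℝ) < (SbQ H b).card := by exact_mod_cast h0
      have hsub : (SbQ H b).filter (fun s => E s) ⊆
          (SbQ H b).filter (fun s => e < |wcQ Y q s / MbQ Y q b - 1|) ∪ (SbQ H b).filter (fun s => ¬ (AdmQ q s → |S s - singPQ q s z| ≤ e * singPQ q s z)) := by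
        intro s hs
        rw [mem_filter] at hs
        obtain ⟨hs1, hs2⟩ := hs
        rw [hE] at hs2
        rw [mem_union, mem_filter, mem_filter]
        by_contra hcon
        rw [not_or] at hcon
        obtain ⟨c1, c2⟩ := hcon
        have c1 : |wcQ Y q s / MbQ Y q b - 1| ≤ e := by
          by_contra h
          exact c1 ⟨hs1, not_le.1 h⟩
        have c2 : AdmQ q s → |S s - singPQ q s z| ≤ e * singPQ q s z := by
          by_contra h
          exact c2 ⟨hs1, h⟩
        apply hs2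
        have hsb : (fun i => ((s i : ℕ) : ZMod (PW z))) = b := by
          funext i
          have := Fintype.mem_piFinset.1 hs1 i
          unfold cls at this
          exact (mem_filter.1 this).2
        have hsX : ∀ i, s i ∈ Icc 1 (H i) := fun i => by
          have := Fintype.mem_piFinset.1 hs1 i
          unfold cls at this
          exact (mem_filter.1 this).1
        have hmb := mbs d z Y K q s
        rw [hsb] at hmb
        have hMb := hmb.1
        have hne : (GQ q b).Nonempty := by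
          unfold AdQ at hb
          rw [mem_filter] at hb
          exact hb.2
        have hadm : AdmQ q s := (admE hS s hdK).2 (by rw [hsb]; exact hne)
        have c2 := c2 hadm
        have hMb0 : 0 < MbQ Y q b := by
          have : (0 : ℝ) < (GQ q b).card := by exact_mod_cast card_pos.2 hne
          have hv := vv_pos z
          have hW : (0 : ℝ) < PW z := by exact_mod_cast PW_pos z
          unfold MbQ
          exact mul_pos (div_pos (mul_pos hY0 this) hW) (pow_pos hv K)
        have hbd := wcbE hX3 hS hsX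
        have e1 : |wcQ Y q s - MbQ Y q b| ≤ e * MbQ Y q b := by
          have : wcQ Y q s - MbQ Y q b = (wcQ Y q s / MbQ Y q b - 1) * MbQ Y q b := by field_simp
          rw [this, abs_mul, abs_of_pos hMb0]
          gcongr
        have e2 : |S s * Y - MbQ Y q b| ≤ e * MbQ Y q b := by
          rw [hMb]
          have : S s * Y - Y * singPQ q s z = (S s - singPQ q s z) * Y := by ring
          rw [this, abs_mul, abs_of_pos hY0]
          calc _ ≤ e * singPQ q s z * Y := by gcongr
            _ = _ := by ring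
        apply final_num (w := wcQ Y q s) (e := e) (S := MbQ Y q b) he0 (by rw [he]; linarith) (by rw [he]; linarith) hMb0 e1 e2 hbd.1
        calc wcQ Y q s ≤ cntQ Y q s * ∏ i, Real.log (3 * H i) := hbd.2
          _ ≤ cntQ Y q s * ((∏ i, Real.log (H i)) * (1 + e)) := by gcongr
          _ = _ := by ring
      have hc1 : (((SbQ H b).filter fun s => e < |wcQ Y q s / MbQ Y q b - 1|).card : ℝ) ≤ (e ^ 2)⁻¹ * ∑ s ∈ SbQ H b, (wcQ Y q s / MbQ Y q b - 1) ^ 2 := by
        rw [card_eq_sum_ones, Nat.cast_sum, mul_sum]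
        push_cast
        refine le_trans ?_ (sum_le_sum_of_subset_of_nonneg (filter_subset (fun s => e < |wcQ Y q s / MbQ Y q b - 1|) (SbQ H b)) (fun s _ _ => by positivity))
        apply sum_le_sum
        intro s hs
        rw [mem_filter] at hs
        have h3 : e ^ 2 ≤ (wcQ Y q s / MbQ Y q b - 1) ^ 2 := by
          rw [← sq_abs (wcQ Y q s / MbQ Y q b - 1)]
          have := hs.2
          gcongr
        rw [inv_mul_eq_div, le_div_iff₀ (by positivity)]
        linarith
      have hc2 := hnear b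
      have hc3 : (((SbQ H b).filter fun s => E s).card : ℝ) ≤
          (e ^ 2)⁻¹ * ∑ s ∈ SbQ H b, (wcQ Y q s / MbQ Y q b - 1) ^ 2 + ε / 8 * (SbQ H b).card := by
        have h3 := card_le_card hsub
        have h4 := h3.trans (card_union_le _ _)
        have h5 : (((SbQ H b).filter fun s => E s).card : ℝ) ≤
          (((SbQ H b).filter fun s => e < |wcQ Y q s / MbQ Y q b - 1|).card : ℝ) + (((SbQ H b).filter (fun s => ¬ (AdmQ q s → |S s - singPQ q s z| ≤ e * singPQ q s z))).card : ℝ) := by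
          exact_mod_cast h4
        linarith
      rw [div_le_iff₀ h0']
      refine hc3.trans (le_of_eq ?_)
      rw [add_mul, mul_assoc (e ^ 2)⁻¹, div_mul_cancel₀ _ h0'.ne']
    have hA0 : (0 : ℝ) ≤ ((AdQ (PW z) q).card : ℝ) := Nat.cast_nonneg _
    have he2 : (0 : ℝ) ≤ (e ^ 2)⁻¹ := by positivity
    have hv2 := mul_le_mul_of_nonneg_left hv he2
    calc _ ≤ ∑ b ∈ AdQ (PW z) q, ((e ^ 2)⁻¹ * ((∑ s ∈ SbQ H b, (wcQ Y q s / MbQ Y q b - 1) ^ 2) / ((SbQ H b).card : ℝ)) + ε / 8) := sum_le_sum hb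
      _ = (e ^ 2)⁻¹ * ∑ b ∈ AdQ (PW z) q, ((∑ s ∈ SbQ H b, (wcQ Y q s / MbQ Y q b - 1) ^ 2) / ((SbQ H b).card : ℝ)) + ε / 8 * (AdQ (PW z) q).card := by
        rw [sum_add_distrib, ← mul_sum, sum_const, nsmul_eq_mul]; ring
      _ ≤ (e ^ 2)⁻¹ * (e ^ 2 * (ε / 8) * ((AdQ (PW z) q).card : ℝ)) + ε / 8 * (AdQ (PW z) q).card := add_le_add hv2 le_rfl
      _ = _ := by
        have : (e ^ 2)⁻¹ * (e ^ 2 * (ε / 8) * ((AdQ (PW z) q).card : ℝ)) = ε / 8 * ((AdQ (PW z) q).card : ℝ) := by
          rw [← mul_assoc, ← mul_assoc, inv_mul_cancel₀ (by positivity), one_mul]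
        rw [this]; ring
  have ht := transE hdK hS h8 hfin
  have hAT : (0 : ℝ) ≤ ((ATQ H q).card : ℝ) := Nat.cast_nonneg _
  have ht2 : (((ATQ H q).filter fun s => E s).card : ℝ) ≤ ε * ((ATQ H q).card : ℝ) := by
    refine ht.trans ?_
    have := mul_nonneg hε.le hAT
    linarith
  unfold HLQ
  have hfe : (ATQ H q).filter (fun s => ¬ (|cntQ Y q s * ∏ i, Real.log (H i) - S s * Y| ≤ ε * (S s * Y))) = (ATQ H q).filter fun s => E s :=
    filter_congr fun s _ => (hE s).symm
  rw [hfe]
  exact ht2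


end Pool.Agent.Q145.LE
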