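import Pool.Agent.Q145.LE.Sys
import Pool.Agent.Q53.LQ.HSQ

/-!
# Project LE: the average of the pair singular series (adapted from `Pool/Agent/Q53/LQ/JPOLY.lean`, `HSQ.lean`)
-/

set_option autoImplicit false

namespace Pool.Agent.Q145.LE

open Finset Filter
open Pool.Agent.Q145.SZ Pool.Agent.Q145.LQ Pool.Agent.Q261.SZ Pool.Agent.Q53.LQ.JPOLY Pool.Agent.Q53.LQ.HSQ

/-- the main inequality before the estimates -/
theorem main_sumE (z Y Z M d : ℕ) (hz : 2 ≤ z) (R : Polynomial ℤ) (hR : R ≠ 0) (hd : R.natDegree ≤ d)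
    (hl : ∀ p : ℕ, p.Prime → z < p → ¬ (p : ℤ) ∣ R.leadingCoeff) (c : ZMod (PW z)) :
    ∑ m ∈ (Ioc Y (2 * Y)).filter (fun m : ℕ => (m : ZMod (PW z)) = c ∧ R.eval (m : ℤ) ≠ 0 ∧
      (R.eval (m : ℤ)).natAbs ≤ Z), JP z (R.eval (m : ℤ)).natAbs ^ M ≤
      (Y : ℝ) / PW z * ∏ p ∈ (Ioc z Z).filter Nat.Prime, (1 + d * gj M p / p) +
          ∏ p ∈ (Ioc z Z).filter Nat.Prime, (1 + d * gj M p) := by
  classical
  set P := (Ioc z Z).filter Nat.Prime with hP
  have hPm : ∀ p ∈ P, p.Prime ∧ z < p := by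
    intro p hp
    rw [hP, mem_filter, mem_Ioc] at hp
    exact ⟨hp.2, hp.1.1⟩
  have hg0 : ∀ E ∈ P.powerset, 0 ≤ ∏ p ∈ E, gj M p := fun E hE =>
    prod_nonneg fun p hp => gj_nonneg (hPm p (mem_powerset.1 hE hp)).1.two_le
  set S := (Ioc Y (2 * Y)).filter (fun m : ℕ => (m : ZMod (PW z)) = c ∧ R.eval (m : ℤ) ≠ 0 ∧
      (R.eval (m : ℤ)).natAbs ≤ Z) with hS
  have h1 : ∑ m ∈ S, JP z (R.eval (m : ℤ)).natAbs ^ M =
      ∑ m ∈ S, ∑ E ∈ P.powerset, if (∏ p ∈ E, p) ∣ (R.eval (m : ℤ)).natAbs then ∏ p ∈ E, gj M p else 0 := by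
    refine sum_congr rfl fun m hm => ?_
    rw [hS, mem_filter] at hm
    exact JP_pow z Z M _ (Int.natAbs_ne_zero.2 hm.2.2.1) hm.2.2.2
  rw [h1, sum_comm, prod_one_add, prod_one_add, mul_sum, ← sum_add_distrib]
  refine sum_le_sum fun E hE => ?_
  have hEp : ∀ p ∈ E, p.Prime ∧ z < p := fun p hp => hPm p (mem_powerset.1 hE hp)
  have hEl : ∀ p ∈ E, p.Prime ∧ ¬ (p : ℤ) ∣ R.leadingCoeff ∧ (PW z).Coprime p := by
    intro p hp
    exact ⟨(hEp p hp).1, hl p (hEp p hp).1 (hEp p hp).2, coprime_PW (hEp p hp).1 (hEp p hp).2⟩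
  have h2 : ∑ m ∈ S, (if (∏ p ∈ E, p) ∣ (R.eval (m : ℤ)).natAbs then ∏ p ∈ E, gj M p else 0) =
      ((S.filter fun m : ℕ => (∏ p ∈ E, p) ∣ (R.eval (m : ℤ)).natAbs).card : ℝ) * ∏ p ∈ E, gj M p := by
    rw [← sum_filter, sum_const, nsmul_eq_mul]
  rw [h2]
  have h3 : ((S.filter fun m : ℕ => (∏ p ∈ E, p) ∣ (R.eval (m : ℤ)).natAbs).card : ℝ) ≤
      d ^ E.card * ((Y : ℝ) / (PW z * ∏ p ∈ E, p : ℕ) + 1) := by
    refine cnt_roots Y d R hd E hEl c _ ((filter_subset _ _).trans (filter_subset _ _)) ?_ ?_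
    · intro m hm
      exact (mem_filter.1 (mem_filter.1 hm).1).2.1
    · intro m hm p hp
      rw [Int.natCast_dvd]
      exact (dvd_prod_of_mem _ hp).trans (mem_filter.1 hm).2
  have h4 : ∏ p ∈ E, (d : ℝ) * gj M p / (p : ℝ) = d ^ E.card * (∏ p ∈ E, gj M p) / ((∏ p ∈ E, p : ℕ) : ℝ) := by
    rw [prod_div_distrib, prod_mul_distrib, prod_const]
    push_cast
    rfl
  have h5 : ∏ p ∈ E, (d : ℝ) * gj M p = d ^ E.card * (∏ p ∈ E, gj M p) := by
    rw [prod_mul_distrib, prod_const]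
  rw [h4, h5]
  calc _ ≤ (d ^ E.card * ((Y : ℝ) / (PW z * ∏ p ∈ E, p : ℕ) + 1)) * ∏ p ∈ E, gj M p :=
        mul_le_mul_of_nonneg_right h3 (hg0 E hE)
    _ = _ := by
      have hWr : (PW z : ℝ) ≠ 0 := by exact_mod_cast (NeZero.ne (PW z))
      have her : ((∏ p ∈ E, p : ℕ) : ℝ) ≠ 0 := by
        exact_mod_cast (prod_pos fun p hp => (hEp p hp).1.pos).ne'
      push_cast at her ⊢
      field_simp

/-- the conclusion of `S_JPOLY` for `3 ≤ Z` -/
def JPOLYe : Prop := ∀ d : ℕ, ∃ (C z₀ : ℕ), 1 ≤ C ∧ ∀ (z Y Z M : ℕ) (R : Polynomial ℤ), z₀ ≤ z →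
  8 * M ≤ z → 3 ≤ Z → Y ≤ Z → (PW z : ℝ) ^ 2 * Real.log Z ^ (C * (M + 1)) ≤ Y →
  R ≠ 0 → R.natDegree ≤ d → (∀ p : ℕ, p.Prime → z < p → ¬ (p : ℤ) ∣ R.leadingCoeff) → ∀ c : ZMod (PW z),
  ∑ m ∈ (Ioc Y (2 * Y)).filter (fun m : ℕ => (m : ZMod (PW z)) = c ∧ R.eval (m : ℤ) ≠ 0 ∧
    (R.eval (m : ℤ)).natAbs ≤ Z), JP z (R.eval (m : ℤ)).natAbs ^ M ≤
      ((Y : ℝ) / PW z) * (1 + C / Real.log z)

theorem jpolyE (hSQ2 : S_SQ2) : JPOLYe := by
  intro d
  obtain ⟨C₁, hC₁, hSQ⟩ := hSQ2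
  obtain ⟨C₂, hC₂⟩ := Pool.Agent.Helper256.KM.mertens_inv
  have hev : ∀ᶠ z : ℕ in atTop, Real.exp ((z : ℝ) / 2) ≤ PW z ∧ 60 ≤ z ∧ 1 ≤ Real.log z ∧
      d * C₁ ≤ Real.log z ∧ C₂ ≤ Real.log (z : ℝ) := by
    have h1 : Tendsto (fun z : ℕ => Real.log z) atTop atTop :=
      Real.tendsto_log_atTop.comp tendsto_natCast_atTop_atTop
    filter_upwards [PW_large, eventually_ge_atTop 60, h1.eventually_ge_atTop 1,
      h1.eventually_ge_atTop (d * C₁), h1.eventually_ge_atTop C₂] with z a b c d e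
    exact ⟨a, b, c, d, e⟩
  obtain ⟨z₀, hz₀⟩ := hev.exists_forall_of_atTop
  obtain ⟨C, hC⟩ := exists_nat_ge (2 * (d * C₁) + 8 * d + 1)
  have hdr : (0 : ℝ) ≤ d * C₁ := by positivity
  have hC8 : 8 * d + 1 ≤ C := by
    have : ((8 * d + 1 : ℕ) : ℝ) ≤ C := by
      push_cast
      linarith
    exact_mod_cast this
  refine ⟨C, z₀, by omega, ?_⟩
  intro z Y Z M R hz hM hZ3 hYZ hY hR hRd hRl c
  obtain ⟨hW, hz60, hlog1, hlogC, hlogC2⟩ := hz₀ z hz
  have hz60r : (60 : ℝ) ≤ z := by exact_mod_cast hz60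
  have hW0 : (0 : ℝ) < PW z := by exact_mod_cast Nat.pos_of_ne_zero (NeZero.ne (PW z))
  have hW1 : (1 : ℝ) ≤ PW z := by exact_mod_cast Nat.pos_of_ne_zero (NeZero.ne (PW z))
  have hlog0 : 0 < Real.log z := by linarith
  set L := Real.log Z with hL
  have hZ0 : (0 : ℝ) < Z := by exact_mod_cast (show 0 < Z by omega)
  have hL1 : 1 ≤ L := by
    rw [hL, Real.le_log_iff_exp_le hZ0]
    have : (3 : ℝ) ≤ Z := by exact_mod_cast hZ3
    linarith [Real.exp_one_lt_d9]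
  have hWY : (PW z : ℝ) ^ 2 ≤ Y :=
    le_trans (le_mul_of_one_le_right (by positivity) (one_le_pow₀ hL1)) hY
  have hYZr : (Y : ℝ) ≤ Z := by exact_mod_cast hYZ
  have hLz : (z : ℝ) ≤ L := by
    rw [hL, Real.le_log_iff_exp_le hZ0]
    refine le_trans ?_ (hWY.trans hYZr)
    calc Real.exp (z : ℝ) = Real.exp ((z : ℝ) / 2) ^ 2 := by
          rw [← Real.exp_nat_mul]
          congr 1
          push_cast
          ring
      _ ≤ _ := by gcongr
  have hY0 : (0 : ℝ) < Y := lt_of_lt_of_le (by positivity) hWY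
  have hloglog : C₂ ≤ Real.log L := hlogC2.trans (Real.log_le_log (by linarith) hLz)
  have hMe : ∑ p ∈ (Icc 1 Z).filter Nat.Prime, 1 / (p : ℝ) ≤ Real.log (Real.log Z) + C₂ := by
    have := (abs_le.1 (hC₂ Z hZ3)).2
    linarith
  have hA1 := first_le z Z M d (by omega) hM (hSQ z Z (by omega))
  have hA2 := second_le z Z M d (by omega) hM hMe (by rw [← hL]; exact hloglog) hL1
  rw [← hL] at hA2
  have hexp : Real.exp (d * C₁ / Real.log z) ≤ 1 + 2 * (d * C₁ / Real.log z) := by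
    have h1 : 0 ≤ d * C₁ / Real.log z := by positivity
    have h2 : d * C₁ / Real.log z ≤ 1 := by
      rw [div_le_one hlog0]
      exact hlogC
    have := exp_quad h1 h2
    nlinarith
  have hkey : (PW z : ℝ) * L ^ (8 * d * M) * Real.log z ≤ Y := by
    refine le_trans ?_ hY
    have h1 : Real.log z ≤ PW z := by
      have h2 := Real.log_le_sub_one_of_pos (show (0 : ℝ) < z by linarith)
      have h3 := Real.add_one_le_exp ((z : ℝ) / 2)
      have h4 : Real.log z ≤ (z : ℝ) / 2 + 1 := by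
        have h5 : Real.log z = Real.log (z / 2) + Real.log 2 := by
          rw [← Real.log_mul (by positivity) two_ne_zero]
          congr 1
          ring
        have h6 := Real.log_le_sub_one_of_pos (show (0 : ℝ) < z / 2 by linarith)
        have h7 := Real.log_two_lt_d9
        linarith
      linarith
    have h2 : L ^ (8 * d * M) ≤ L ^ (C * (M + 1)) := by
      refine pow_le_pow_right₀ hL1 ?_
      exact Nat.mul_le_mul (by omega) (by omega)
    calc (PW z : ℝ) * L ^ (8 * d * M) * Real.log z ≤ (PW z : ℝ) * L ^ (C * (M + 1)) * PW z := by gcongr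
      _ = _ := by ring
  set T : ℝ := (Y : ℝ) / PW z with hT
  have hT0 : 0 < T := by positivity
  have hTL : L ^ (8 * d * M) ≤ T * (1 / Real.log z) := by
    rw [hT, mul_one_div, div_div, le_div_iff₀ (by positivity)]
    calc L ^ (8 * d * M) * (↑(PW z) * Real.log ↑z) = (PW z : ℝ) * L ^ (8 * d * M) * Real.log z := by ring
      _ ≤ Y := hkey
  refine (main_sumE z Y Z M d (by omega) R hR hRd hRl c).trans ?_
  rw [← hT]
  have h1 := mul_le_mul_of_nonneg_left (hA1.trans hexp) hT0.le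
  have h2 : T * (1 + 2 * (d * C₁ / Real.log z)) + T * (1 / Real.log z) ≤ T * (1 + C / Real.log z) := by
    have e : T * (1 + 2 * (d * C₁ / Real.log z)) + T * (1 / Real.log z) =
      T * (1 + (2 * (d * C₁) + 1) / Real.log z) := by ring
    rw [e]
    have h3 : 2 * (d * C₁) + 1 ≤ (C : ℝ) := by
      have : (0 : ℝ) ≤ 8 * d := by positivity
      linarith
    gcongr
  linarith

open Classical in
/-- the conclusion of `S_HSQ` -/
def HSQe : Prop := ∀ d : ℕ, ∃ (C z₀ : ℕ), 1 ≤ C ∧ ∀ (z Y X K r : ℕ) (H : Fin K → ℕ) (q : Fin K → Polynomial ℤ), z₀ ≤ z → r ≤ 2 → 32 * K ≤ z → SysE d z Y X H q → Y ≤ X →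
  (PW z : ℝ) ^ 2 * Real.log ((Uz z : ℝ) * X) ^ (C * (K + 1)) ≤ Y → ∀ c e : ZMod (PW z),
  ∑ n ∈ (Ioc Y (2 * Y)).filter (fun n : ℕ => (n : ZMod (PW z)) = c),
    ∑ m ∈ (Ioc Y (2 * Y)).filter (fun m : ℕ => (m : ZMod (PW z)) = e ∧ okp q n m), ∏ i, SP z (H i) (dst (vq (q i) n) (vq (q i) m)) ^ r ≤ ((Y : ℝ) / PW z) ^ 2 * (1 + C / Real.log z)

theorem hsqE (hJ : JPOLYe) : HSQe := by
  classical
  intro d
  obtain ⟨C, z₁, hC1, hJ⟩ := hJ d
  have hev : ∀ᶠ z : ℕ in atTop, Real.exp ((z : ℝ) / 2) ≤ PW z ∧ 60 ≤ z ∧ 1 ≤ Real.log z ∧ z₁ ≤ z := by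
    have h1 : Tendsto (fun z : ℕ => Real.log z) atTop atTop :=
      Real.tendsto_log_atTop.comp tendsto_natCast_atTop_atTop
    filter_upwards [PW_large, eventually_ge_atTop 60, h1.eventually_ge_atTop 1,
      eventually_ge_atTop z₁] with z a b c d
    exact ⟨a, b, c, d⟩
  obtain ⟨z₀, hz₀⟩ := hev.exists_forall_of_atTop
  refine ⟨4 * C, z₀, by omega, ?_⟩
  intro z Y X K r H q hz hr hK hS hYX hY c e
  obtain ⟨hW, hz60, hlog1, hz1⟩ := hz₀ z hz
  have hz60r : (60 : ℝ) ≤ z := by exact_mod_cast hz60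
  have hW0 : (0 : ℝ) < PW z := by exact_mod_cast Nat.pos_of_ne_zero (NeZero.ne (PW z))
  have hlog0 : 0 < Real.log z := by linarith
  rcases Nat.eq_zero_or_pos Y with hY0 | hY0
  · subst hY0
    simp
  have hX0 : 0 < X := by omega
  have hZ3 : 3 ≤ Uz z * X := le_trans (by have := le_Uz z; omega : 3 ≤ Uz z) (Nat.le_mul_of_pos_right (Uz z) hX0)
  have hYZ : Y ≤ Uz z * X := hYX.trans (Nat.le_mul_of_pos_left X (Uz_pos z))
  have hLeq : Real.log ((Uz z : ℝ) * X) = Real.log ((Uz z * X : ℕ) : ℝ) := by push_cast; rfl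
  set L := Real.log ((Uz z * X : ℕ) : ℝ) with hL
  rw [hLeq] at hY
  have hL1 : 1 ≤ L := by
    rw [hL, Real.le_log_iff_exp_le (by exact_mod_cast Nat.mul_pos (Uz_pos z) hX0)]
    have : (3 : ℝ) ≤ ((Uz z * X : ℕ) : ℝ) := by exact_mod_cast hZ3
    linarith [Real.exp_one_lt_d9]
  have hWY : (PW z : ℝ) ^ 2 ≤ Y :=
    le_trans (le_mul_of_one_le_right (by positivity) (one_le_pow₀ hL1)) hY
  set T : ℝ := (Y : ℝ) / PW z with hT
  have hY0r : (0 : ℝ) < Y := by exact_mod_cast hY0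
  have hT0 : 0 < T := by positivity
  -- the inner sum
  have hJM : ∀ R : Polynomial ℤ, R ≠ 0 → R.natDegree ≤ d → (∀ p : ℕ, p.Prime → z < p → ¬ (p : ℤ) ∣ R.leadingCoeff) →
      ∑ m ∈ (Ioc Y (2 * Y)).filter (fun m : ℕ => (m : ZMod (PW z)) = e ∧ R.eval (m : ℤ) ≠ 0 ∧
        (R.eval (m : ℤ)).natAbs ≤ Uz z * X), JP z (R.eval (m : ℤ)).natAbs ^ (2 * r * K) ≤
        T * (1 + C / Real.log z) := by
    intro R hR hRd hRl
    have hM4 : 2 * r * K ≤ 4 * K := Nat.mul_le_mul_right K (by omega)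
    refine hJ z Y (Uz z * X) (2 * r * K) R hz1 (by omega) hZ3 hYZ ?_ hR hRd hRl e
    refine le_trans ?_ hY
    rw [← hL]
    refine mul_le_mul_of_nonneg_left (pow_le_pow_right₀ hL1 ?_) (by positivity)
    have : 2 * r * K + 1 ≤ 4 * (K + 1) := by omega
    calc C * (2 * r * K + 1) ≤ C * (4 * (K + 1)) := Nat.mul_le_mul_left _ this
      _ = 4 * C * (K + 1) := by ring
  have hinner : ∀ n ∈ Ioc Y (2 * Y),
      ∑ m ∈ (Ioc Y (2 * Y)).filter (fun m : ℕ => (m : ZMod (PW z)) = e ∧ okp q n m),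
        ∏ i, SP z (H i) (dst (vq (q i) n) (vq (q i) m)) ^ r ≤ T * (1 + C / Real.log z) := by
    intro n hn
    rcases Nat.eq_zero_or_pos K with hK0 | hK0
    · subst hK0
      have h1 := hJM 1 one_ne_zero (by simp) (fun p hp _ hd => hp.one_lt.ne' (by rw [Polynomial.leadingCoeff_one] at hd; exact_mod_cast Int.eq_one_of_dvd_one (by positivity) hd))
      refine le_trans ?_ h1
      simp only [univ_eq_empty, prod_empty, mul_zero, pow_zero, sum_const, nsmul_eq_mul, mul_one]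
      have h2 : ((Ioc Y (2 * Y)).filter (fun m : ℕ => (m : ZMod (PW z)) = e ∧ okp q n m)).card ≤
        ((Ioc Y (2 * Y)).filter (fun m : ℕ => (m : ZMod (PW z)) = e ∧ (1 : Polynomial ℤ).eval (m : ℤ) ≠ 0 ∧
        ((1 : Polynomial ℤ).eval (m : ℤ)).natAbs ≤ Uz z * X)).card := by
        refine card_le_card fun m hm => ?_
        rw [mem_filter] at hm ⊢
        refine ⟨hm.1, hm.2.1, by simp, ?_⟩
        rw [Polynomial.eval_one]
        simp
        omega
      exact_mod_cast h2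
    have hKne : K ≠ 0 := by omega
    have hd1 : 1 ≤ d := (hS.deg ⟨0, hK0⟩).1.trans (hS.deg ⟨0, hK0⟩).2
    choose R hR0 hRd hRl hRe using fun i => divdiff (q i) (hS.deg i).1 (n : ℤ)
    have hpos : ∀ i, ∀ k ∈ Ioc Y (2 * Y), 0 ≤ (q i).eval (k : ℤ) := by
      intro i k hk
      have := (hS.val i k hk).1
      have h2 : (0 : ℤ) ≤ H i := Int.natCast_nonneg _
      omega
    have hdst : ∀ i, ∀ m ∈ Ioc Y (2 * Y), dst (vq (q i) n) (vq (q i) m) =
        dst n m * ((R i).eval (m : ℤ)).natAbs := by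
      intro i m hm
      unfold vq
      rw [dst_toNat (hpos i n hn) (hpos i m hm), hRe, Int.natAbs_mul, dst_nat]
    -- the two kinds of sums
    have hX1 := hJM (Polynomial.X - Polynomial.C (n : ℤ)) (Polynomial.X_sub_C_ne_zero _)
      (by rw [Polynomial.natDegree_X_sub_C]; exact hd1)
      (fun p hp _ hd => hp.one_lt.ne' (by rw [Polynomial.leadingCoeff_X_sub_C] at hd; exact_mod_cast Int.eq_one_of_dvd_one (by positivity) hd))
    have hR1 := fun i => hJM (R i) (hR0 i) ((hRd i).trans (hS.deg i).2) (by rw [hRl i]; exact hS.lead i)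
    set F := (Ioc Y (2 * Y)).filter (fun m : ℕ => (m : ZMod (PW z)) = e ∧ okp q n m) with hF
    have hFX : F ⊆ (Ioc Y (2 * Y)).filter (fun m : ℕ => (m : ZMod (PW z)) = e ∧
        (Polynomial.X - Polynomial.C (n : ℤ)).eval (m : ℤ) ≠ 0 ∧
        ((Polynomial.X - Polynomial.C (n : ℤ)).eval (m : ℤ)).natAbs ≤ Uz z * X) := by
      intro m hm
      rw [hF, mem_filter] at hm
      rw [mem_filter]
      refine ⟨hm.1, hm.2.1, ?_, ?_⟩
      · rw [Polynomial.eval_sub, Polynomial.eval_X, Polynomial.eval_C]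
        have := hm.2.2.1
        omega
      · rw [Polynomial.eval_sub, Polynomial.eval_X, Polynomial.eval_C]
        rw [mem_Ioc] at hn hm
        omega
    have hFR : ∀ i, F ⊆ (Ioc Y (2 * Y)).filter (fun m : ℕ => (m : ZMod (PW z)) = e ∧
        (R i).eval (m : ℤ) ≠ 0 ∧ ((R i).eval (m : ℤ)).natAbs ≤ Uz z * X) := by
      intro i m hm
      rw [hF, mem_filter] at hm
      rw [mem_filter]
      have hne : dst (vq (q i) n) (vq (q i) m) ≠ 0 := by
        have := hm.2.2.2 i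
        unfold dst
        omega
      rw [hdst i m hm.1] at hne
      have hne2 := (Nat.mul_ne_zero_iff.1 hne)
      refine ⟨hm.1, hm.2.1, Int.natAbs_ne_zero.1 hne2.2, ?_⟩
      have h1 : ((R i).eval (m : ℤ)).natAbs ≤ dst (vq (q i) n) (vq (q i) m) := by
        rw [hdst i m hm.1]
        exact Nat.le_mul_of_pos_left _ (Nat.pos_of_ne_zero hne2.1)
      refine h1.trans (le_trans ?_ (hS.scale i).2)
      have a1 := hS.val i n hn
      have a2 := hS.val i m hm.1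
      unfold vq dst
      omega
    have hpt : ∀ m ∈ F, ∏ i, SP z (H i) (dst (vq (q i) n) (vq (q i) m)) ^ r ≤
        (1 / 2) * JP z ((Polynomial.X - Polynomial.C (n : ℤ)).eval (m : ℤ)).natAbs ^ (2 * r * K) +
        (1 / 2) * ((1 / (K : ℝ)) * ∑ i, JP z ((R i).eval (m : ℤ)).natAbs ^ (2 * r * K)) := by
      intro m hm
      have hm1 := hm
      rw [hF, mem_filter] at hm1
      have e1 : ((Polynomial.X - Polynomial.C (n : ℤ)).eval (m : ℤ)).natAbs = dst n m := by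
        rw [Polynomial.eval_sub, Polynomial.eval_X, Polynomial.eval_C, dst_nat]
      rw [e1]
      have h2 := point (z := z) (K := K) (r := r) (by omega) hKne (dst n m) ?_ H
        (fun i => ((R i).eval (m : ℤ)).natAbs) ?_
      · refine le_trans (le_of_eq ?_) h2
        exact prod_congr rfl fun i _ => by rw [hdst i m hm1.1]
      · have := hm1.2.2.1
        unfold dst
        omega
      · intro i
        have := hFR i hm
        rw [mem_filter] at this
        exact Int.natAbs_ne_zero.2 this.2.2.1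
    refine (sum_le_sum hpt).trans ?_
    rw [sum_add_distrib, ← mul_sum, ← mul_sum, ← mul_sum, sum_comm]
    have hnn : ∀ h : ℕ, 0 ≤ JP z h ^ (2 * r * K) := fun h => pow_nonneg (zero_le_one.trans (JP_one_le z h)) _
    have b1 := (sum_le_sum_of_subset_of_nonneg (f := fun m : ℕ =>
      JP z ((Polynomial.X - Polynomial.C (n : ℤ)).eval (m : ℤ)).natAbs ^ (2 * r * K)) hFX
      fun m _ _ => hnn _).trans hX1
    have b2 : ∀ i, ∑ m ∈ F, JP z ((R i).eval (m : ℤ)).natAbs ^ (2 * r * K) ≤ T * (1 + C / Real.log z) :=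
      fun i => (sum_le_sum_of_subset_of_nonneg (hFR i) fun m _ _ => hnn _).trans (hR1 i)
    have hKr : (0 : ℝ) < K := by exact_mod_cast hK0
    have b3 : (1 / (K : ℝ)) * ∑ i : Fin K, ∑ m ∈ F, JP z ((R i).eval (m : ℤ)).natAbs ^ (2 * r * K) ≤
        T * (1 + C / Real.log z) := by
      have : ∑ i : Fin K, ∑ m ∈ F, JP z ((R i).eval (m : ℤ)).natAbs ^ (2 * r * K) ≤
          K * (T * (1 + C / Real.log z)) := by
        refine (sum_le_card_nsmul _ _ _ fun i _ => b2 i).trans (le_of_eq ?_)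
        rw [card_univ, Fintype.card_fin, nsmul_eq_mul]
      calc (1 / (K : ℝ)) * ∑ i : Fin K, ∑ m ∈ F, JP z ((R i).eval (m : ℤ)).natAbs ^ (2 * r * K) ≤
          (1 / (K : ℝ)) * (K * (T * (1 + C / Real.log z))) := by gcongr
        _ = _ := by field_simp
    linarith
  -- the outer sum
  have hcard : (((Ioc Y (2 * Y)).filter (fun n : ℕ => (n : ZMod (PW z)) = c)).card : ℝ) ≤ T + 1 := by
    refine cnt_le Y (PW z) (Nat.pos_of_ne_zero (NeZero.ne (PW z))) _ (filter_subset _ _) fun a ha b hb => ?_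
    rw [mem_filter] at ha hb
    rw [← ZMod.natCast_eq_natCast_iff, ha.2, hb.2]
  refine (sum_le_card_nsmul _ _ _ fun n hn => hinner n (mem_filter.1 hn).1).trans ?_
  rw [nsmul_eq_mul]
  have hC0 : (0 : ℝ) ≤ C := Nat.cast_nonneg _
  have hB0 : 0 ≤ T * (1 + C / Real.log z) := by positivity
  refine (mul_le_mul_of_nonneg_right hcard hB0).trans ?_
  have h1 : Real.log z ≤ T := by
    have h2 : (PW z : ℝ) ≤ T := by
      rw [hT, le_div_iff₀ hW0]
      calc (PW z : ℝ) * PW z = (PW z : ℝ) ^ 2 := by ring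
        _ ≤ Y := hWY
    have h3 : Real.log z ≤ PW z := by
      have h3 := Real.add_one_le_exp ((z : ℝ) / 2)
      have h4 : Real.log z ≤ (z : ℝ) / 2 + 1 := by
        have h5 : Real.log z = Real.log (z / 2) + Real.log 2 := by
          rw [← Real.log_mul (by positivity) two_ne_zero]
          congr 1
          ring
        have h6 := Real.log_le_sub_one_of_pos (show (0 : ℝ) < z / 2 by linarith)
        have h7 := Real.log_two_lt_d9
        linarith
      linarith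
    linarith
  set u : ℝ := 1 / Real.log z with hu
  have hu0 : 0 < u := by positivity
  have hu1 : u ≤ 1 := by
    rw [hu, div_le_one hlog0]
    exact hlog1
  have hTu : 1 ≤ T * u := by
    rw [hu, mul_one_div, le_div_iff₀ hlog0, one_mul]
    exact h1
  have hC1r : (1 : ℝ) ≤ C := by exact_mod_cast hC1
  have hCu : (C : ℝ) / Real.log z = C * u := by rw [hu]; ring
  have hCu4 : ((4 * C : ℕ) : ℝ) / Real.log z = 4 * C * u := by rw [hu]; push_cast; ring
  rw [hCu, hCu4]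
  calc (T + 1) * (T * (1 + C * u)) ≤ (T + T * u) * (T * (1 + C * u)) := by gcongr
    _ = T ^ 2 * (1 + (1 + C) * u + C * (u * u)) := by ring
    _ ≤ T ^ 2 * (1 + (1 + C) * u + C * (u * 1)) := by gcongr
    _ ≤ T ^ 2 * (1 + 4 * C * u) := by
        refine mul_le_mul_of_nonneg_left ?_ (by positivity)
        have h9 : u ≤ C * u := le_mul_of_one_le_left hu0.le hC1r
        have h10 : 0 ≤ C * u := mul_nonneg hC0 hu0.le
        linarith


end Pool.Agent.Q145.LE
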