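import Pool.Agent.Q145.LE.Near
import Pool.Agent.Q145.LE.An
import Pool.Agent.Q145.LQ.Inp
import Pool.Agent.Q53.LQ.H2U

/-!
# Project LE: near series, exceptional pairs, the sufficiency statement (adapted from `Pool/Agent/Q145/LQ/Near.lean`, `Exq.lean`, `Inp.lean`)
-/

set_option autoImplicit false
set_option linter.all false

namespace Pool.Agent.Q145.LE

open Finset Filter
open Pool.Agent.Q145.SZ Pool.Agent.Q145.LQ
open Pool.Agent.Q145.LS (SUFP SUFc)

open Classical in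
/-- the full series of linear systems -/
theorem near_linE : ∀ e δ : ℝ, 0 < e → 0 < δ → ∃ M : ℝ, 64 ≤ M ∧ ∀ (z X K : ℕ) (H : Fin K → ℕ) (q : Fin K → Polynomial ℤ), M ≤ Real.log (Real.log X) →
    64 * Real.log (Real.log X) ≤ z → 64 * z * Real.log (Real.log X) ≤ Real.log X → 16 * (K + 1) ≤ z → SysE 1 z X X H q →
    NearQ z H q (singQ q) e δ := by
  intro e δ he hδ
  set e' : ℝ := min (min e 1 / 4) (δ / 2) with he'
  have he'0 : 0 < e' := by positivity
  have he'a : 4 * e' ≤ e := by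
    have h1 : e' ≤ min e 1 / 4 := min_le_left _ _
    have h2 : min e 1 ≤ e := min_le_left _ _
    linarith
  have he'b : e' ≤ 1 := by
    have h1 : e' ≤ min e 1 / 4 := min_le_left _ _
    have h2 : min e 1 ≤ 1 := min_le_right _ _
    linarith
  have he'c : e' ≤ δ / 2 := min_le_right _ _
  obtain ⟨M₁, hM₁, ht⟩ := near_truncE e' (δ / 2) he'0 (by positivity)
  obtain ⟨Y₀, hf⟩ := far_most e' he'0
  set M : ℝ := M₁ + Y₀ with hM
  have p2 : (0 : ℝ) ≤ Y₀ := by positivity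
  have hM64 : 64 ≤ M := by linarith
  refine ⟨M, hM64, ?_⟩
  intro z X K H q hX hz hzY hK hS b
  have hY1 : 1 ≤ X := by
    rcases Nat.eq_zero_or_pos X with h | h
    · rw [h] at hX
      simp at hX
      linarith
    · exact h
  have hYX : X ≤ X := le_rfl
  obtain ⟨hL0, hLM, hzM, hzL, hzl, hXe, hYe, hLe, hl64, hlL, hYXl⟩ := elemQ hM64 hX hYX hz hzY
  have hz0 : (0 : ℝ) < z := by linarith
  have hzl' : 64 * (z : ℝ) ≤ z * Real.log (Real.log X) := by nlinarith
  have hzLY : 4096 * (z : ℝ) ≤ Real.log X := by linarith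
  have hY0 : (0 : ℝ) < X := by exact_mod_cast hY1
  have hLYY : Real.log X ≤ X := by
    have := Real.add_one_le_exp (Real.log X)
    rw [← hXe] at this; linarith
  have hY₀ : Y₀ ≤ X := by
    have : (Y₀ : ℝ) ≤ X := by linarith
    exact_mod_cast this
  have hW40 : (PW z : ℝ) ^ 40 ≤ X := by
    calc (PW z : ℝ) ^ 40 ≤ (Real.exp (2 * z)) ^ 40 := by gcongr; exact PW_le Pool.Agent.Q111.SZ.t_PWB z
      _ = Real.exp (80 * z) := by rw [← Real.exp_nat_mul]; ring_nf
      _ ≤ Real.exp (Real.log X) := Real.exp_le_exp.2 (by linarith)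
      _ = X := hXe.symm
  have hU2 : (Uz z : ℝ) ^ 2 ≤ X := by
    calc (Uz z : ℝ) ^ 2 ≤ (Real.exp (12 * z)) ^ 2 := by gcongr; exact Uz_le_exp z
      _ = Real.exp (24 * z) := by rw [← Real.exp_nat_mul]; ring_nf
      _ ≤ Real.exp (Real.log X) := Real.exp_le_exp.2 (by linarith)
      _ = X := hXe.symm
  have hzw : z ≤ w0 X := by
    apply le_w0 hY1
    have h1 : ((2 ^ 40 * z ^ 40 : ℕ) : ℝ) ≤ (X : ℝ) := by
      rw [Nat.cast_mul, Nat.cast_pow, Nat.cast_pow, Nat.cast_ofNat]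
      have h2 : (2 : ℝ) ≤ Real.exp z := by
        have := Real.add_one_le_exp (z : ℝ)
        linarith
      have h3 : (z : ℝ) ≤ Real.exp z := by
        have := Real.add_one_le_exp (z : ℝ)
        linarith
      calc (2 : ℝ) ^ 40 * (z : ℝ) ^ 40 ≤ (Real.exp z) ^ 40 * (Real.exp z) ^ 40 := by gcongr
        _ = Real.exp (80 * z) := by rw [← Real.exp_nat_mul, ← Real.exp_add]; ring_nf
        _ ≤ Real.exp (Real.log X) := Real.exp_le_exp.2 (by linarith)
        _ = X := hXe.symm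
    exact_mod_cast h1
  have h1 := ht 1 z (w0 X) X X K H q (by linarith) hz hzY hYX (by norm_num) (by omega) hS hzw (w0_pow_le hY1) b
  have h2 := hf z X K H q hY₀ hK hS (by linarith) hW40 hU2 b
  have h3 : (0 : ℝ) ≤ (SbQ H b).card := Nat.cast_nonneg _
  have hsub : ((SbQ H b).filter fun s => ¬ (AdmQ q s → |singQ q s - singPQ q s z| ≤ e * singPQ q s z)) ⊆
      ((SbQ H b).filter fun s => ¬ (AdmQ q s → |singPQ q s (w0 X) - singPQ q s z| ≤ e' * singPQ q s z)) ∪
      ((SbQ H b).filter fun s => ¬ (AdmQ q s → 0 < singQ q s ∧ Tendsto (singPQ q s) atTop (nhds (singQ q s)) ∧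
        |singQ q s - singPQ q s (w0 X)| ≤ e' * singPQ q s (w0 X))) := by
    intro s hs
    rw [mem_filter] at hs
    obtain ⟨hs1, hs2⟩ := hs
    rw [mem_union, mem_filter, mem_filter]
    by_contra hcon
    rw [not_or] at hcon
    obtain ⟨c1, c2⟩ := hcon
    have c1 : AdmQ q s → |singPQ q s (w0 X) - singPQ q s z| ≤ e' * singPQ q s z := by
      by_contra h
      exact c1 ⟨hs1, h⟩
    have c2 : AdmQ q s → 0 < singQ q s ∧ Tendsto (singPQ q s) atTop (nhds (singQ q s)) ∧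
        |singQ q s - singPQ q s (w0 X)| ≤ e' * singPQ q s (w0 X) := by
      by_contra h
      exact c2 ⟨hs1, h⟩
    apply hs2
    intro had
    exact near_comb (singPQ_nonneg q s z) he'0.le he'b he'a (c1 had) (c2 had).2.2
  have h4 := (card_le_card hsub).trans (card_union_le _ _)
  have h5 : ((((SbQ H b).filter fun s => ¬ (AdmQ q s → |singQ q s - singPQ q s z| ≤ e * singPQ q s z))).card : ℝ) ≤
      ((((SbQ H b).filter fun s => ¬ (AdmQ q s → |singPQ q s (w0 X) - singPQ q s z| ≤ e' * singPQ q s z))).card : ℝ) +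
      ((((SbQ H b).filter fun s => ¬ (AdmQ q s → 0 < singQ q s ∧ Tendsto (singPQ q s) atTop (nhds (singQ q s)) ∧
        |singQ q s - singPQ q s (w0 X)| ≤ e' * singPQ q s (w0 X)))).card : ℝ) := by exact_mod_cast h4
  have h6 : e' * ((SbQ H b).card : ℝ) ≤ δ / 2 * ((SbQ H b).card : ℝ) := mul_le_mul_of_nonneg_right he'c h3
  have h7 : δ / 2 * ((SbQ H b).card : ℝ) + δ / 2 * ((SbQ H b).card : ℝ) = δ * ((SbQ H b).card : ℝ) := by ring
  linarith

theorem inputsE (anq : S_ANE) (h2u : S_H2U) (A A₁ : ℕ) (hA : A ≤ A₁) : ∃ (B : ℕ) (C₀ : ℝ), 1 ≤ B ∧ 64 ≤ C₀ ∧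
    ∀ (z X : ℕ) (ω T : ℝ), C₀ ≤ Real.log (Real.log X) → C₀ * Real.log (Real.log X) ≤ z → C₀ * z * Real.log (Real.log X) ≤ Real.log X →
      0 < ω → ω ≤ 1 / 4 → C₀ * Real.log (Real.log X) ≤ ω * Real.log X → 0 < T → 120 * B * z ≤ Real.log T → 7 * √(Real.log X) ≤ Real.log T →
      ZF (PW z ^ B) ω T → ∀ Z : ℕ, X ≤ Z → Z ≤ Uz z * X → INQ A A₁ z Z := by
  obtain ⟨A', X₀, hA', hu⟩ := h2u A₁
  obtain ⟨B, C₀, hB, hC₀, han⟩ := anq A'
  refine ⟨B, 2 * C₀ + X₀, hB, ?_, ?_⟩
  · have : (0 : ℝ) ≤ X₀ := by positivity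
    linarith
  intro z X ω T hl hz hzL hω hω4 hωL hT hTz hTL hZF Z hXZ hZz
  have p1 : (0 : ℝ) ≤ X₀ := by positivity
  have hl0 : 0 < Real.log (Real.log X) := by linarith
  have hl64 : 64 ≤ Real.log (Real.log X) := by linarith
  have hz0 : (0 : ℝ) ≤ z := by positivity
  have hzl0 : 0 ≤ (z : ℝ) * Real.log (Real.log X) := by positivity
  have hX₀l : 0 ≤ (X₀ : ℝ) * Real.log (Real.log X) := by positivity
  have hX₀zl : 0 ≤ (X₀ : ℝ) * (z * Real.log (Real.log X)) := by positivity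
  have hz' : C₀ * Real.log (Real.log X) ≤ z := by nlinarith
  have hzL' : C₀ * z * Real.log (Real.log X) ≤ Real.log X := by nlinarith
  have h64z : 128 * Real.log (Real.log X) ≤ z := by nlinarith
  have h64L : 128 * z * Real.log (Real.log X) ≤ Real.log X := by nlinarith
  obtain ⟨r1, r2⟩ := han z X ω T (by linarith) hz' hzL' hω hω4 (by nlinarith) hT hTz hTL hZF Z hXZ hZz
  obtain ⟨s1, s2, s3, s4⟩ := scaleE hl64 (by linarith) (by nlinarith) hXZ hZz
  have hlog1 : 1 ≤ Real.log Z := by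
    have := elem (z := z) (X := X) (C := 64) (M := 64) le_rfl (by norm_num) hl64 (by linarith) (by nlinarith)
    linarith [this.2.1]
  have hX₀Z : X₀ ≤ Z := by
    have h1 : Real.log (Real.log X) ≤ Real.log X := by
      have hL := (elem (z := z) (X := X) (C := 64) (M := 64) le_rfl (by norm_num) hl64 (by linarith) (by nlinarith)).1
      have := Real.log_le_sub_one_of_pos hL
      linarith
    have h2 : Real.log X ≤ X := by
      rcases Nat.eq_zero_or_pos X with h | h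
      · rw [h]; simp
      · have := Real.log_le_sub_one_of_pos (by exact_mod_cast h : (0 : ℝ) < X)
        linarith
    have h3 : (X : ℝ) ≤ Z := by exact_mod_cast hXZ
    have h4 : (X₀ : ℝ) ≤ Z := by linarith
    exact_mod_cast h4
  obtain ⟨D, hD, hDc, hD2⟩ := hu z Z hX₀Z (by linarith) (by nlinarith) r2
  refine ⟨H1Q_mono (hA.trans hA') hlog1 r1, D, hD, hDc, ?_⟩
  intro n hn m hm h1 h2 h3 h4
  refine (hD2 n hn m hm h1 h2 h3 h4).trans ?_
  have h5 : 1 / Real.log Z ^ A₁ ≤ 1 / Real.log Z ^ A := one_div_le_one_div_of_le (pow_pos (by linarith) _) (pow_le_pow_right₀ hlog1 hA)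
  have h6 : 0 < Real.log Z := by linarith
  have h7 : 0 ≤ 1 / Real.log Z ^ A₁ := by positivity
  have h8 : 0 ≤ 1 / Real.log Z ^ A := by positivity
  have h9 : (1 / Real.log Z ^ A₁ * vv (PW z) ^ 2 * SP z Z (dst n m)) ^ 2 ≤ (1 / Real.log Z ^ A * vv (PW z) ^ 2 * SP z Z (dst n m)) ^ 2 := by
    have e : ∀ x : ℝ, (x * vv (PW z) ^ 2 * SP z Z (dst n m)) ^ 2 = x ^ 2 * (vv (PW z) ^ 2 * SP z Z (dst n m)) ^ 2 := by intro x; ring
    rw [e, e]
    apply mul_le_mul_of_nonneg_right (pow_le_pow_left₀ h7 h5 2) (sq_nonneg _)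
  exact mul_le_mul_of_nonneg_right h9 (Nat.cast_nonneg _)



/-- pairs with an exceptional difference: linear forms -/
theorem exq_linE (a₀ : ℕ) : ∃ M : ℝ, 64 ≤ M ∧ ∀ (z X K : ℕ) (H : Fin K → ℕ) (q : Fin K → Polynomial ℤ) (D : Fin K → Finset ℕ),
    M ≤ Real.log (Real.log X) → 64 * Real.log (Real.log X) ≤ z → 64 * z * Real.log (Real.log X) ≤ Real.log X → K ≤ z →
    SysE 1 z X X H q → (∀ i, D i ⊆ Icc 1 (H i) ∧ ((D i).card : ℝ) ≤ (H i : ℝ) / (PW z : ℝ) ^ (2 * a₀ + 50)) →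
    ((exq X q D).card : ℝ) ≤ (X : ℝ) ^ 2 / (PW z : ℝ) ^ (2 * (a₀ + 8)) := by
  obtain ⟨z₁, hz₁⟩ := Pool.Agent.Q111.SZ.t_PWB.2
  set M : ℝ := 64 + z₁ with hM
  have p2 : (0 : ℝ) ≤ z₁ := by positivity
  have hM64 : 64 ≤ M := by linarith
  refine ⟨M, hM64, ?_⟩
  intro z X K H q D hX hz hzY hK hS hD
  obtain ⟨hL0, hLM, hzM, hzL, hzl, hXe, hYe, hLe, hl64, hlL, hYXl⟩ := elemQ hM64 hX le_rfl hz hzY
  have hq : ∀ i, (q i).natDegree = 1 := fun i => le_antisymm (hS.deg i).2 (hS.deg i).1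
  have hz0 : (0 : ℝ) < z := by linarith
  have hX0 : (0 : ℝ) < X := by rw [hXe]; exact Real.exp_pos _
  have hz1 : z₁ ≤ z := by
    have : (z₁ : ℝ) ≤ z := by linarith
    exact_mod_cast this
  have hW := hz₁ z hz1
  have hW1 := one_le_PW z
  set W : ℝ := (PW z : ℝ) with hWd
  have hW0 : 0 < W := by linarith
  -- one form
  have key : ∀ i, (((((Ioc X (2 * X)) ×ˢ (Ioc X (2 * X))).filter fun x : ℕ × ℕ => dst (vq (q i) x.1) (vq (q i) x.2) ∈ D i).card : ℕ) : ℝ) ≤
      2 * X * (D i).card := by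
    intro i
    have ha := c1_ne (hq i)
    have hpos : ∀ n ∈ Ioc X (2 * X), ((vq (q i) n : ℕ) : ℤ) = (q i).coeff 1 * n + (q i).coeff 0 := by
      intro n hn
      rw [← eval_lin (hq i)]
      exact Int.toNat_of_nonneg (hS.nonneg i hn)
    have h1 : ((((Ioc X (2 * X)) ×ˢ (Ioc X (2 * X))).filter fun x : ℕ × ℕ => dst (vq (q i) x.1) (vq (q i) x.2) ∈ D i)).card ≤
        ((Ioc X (2 * X)) ×ˢ (D i ×ˢ (univ : Finset Bool))).card := by
      refine card_le_card_of_injOn (fun x => (x.1, dst (vq (q i) x.1) (vq (q i) x.2), decide (vq (q i) x.1 ≤ vq (q i) x.2))) ?_ ?_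
      · intro x hx
        rw [mem_coe, mem_filter, mem_product] at hx
        rw [mem_coe, mem_product, mem_product]
        exact ⟨hx.1.1, hx.2, mem_univ _⟩
      · intro x hx y hy hxy
        rw [mem_coe, mem_filter, mem_product] at hx hy
        have e1 := (Prod.ext_iff.1 hxy).1
        have e2 := (Prod.ext_iff.1 (Prod.ext_iff.1 hxy).2).1
        have e3 := (Prod.ext_iff.1 (Prod.ext_iff.1 hxy).2).2
        dsimp only at e1 e2 e3
        rw [decide_eq_decide] at e3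
        have e4 : vq (q i) x.2 = vq (q i) y.2 := by
          rw [← e1] at e2 e3
          unfold dst at e2
          by_cases h : vq (q i) x.1 ≤ vq (q i) x.2
          · have h' := e3.1 h
            omega
          · have h' : ¬ vq (q i) x.1 ≤ vq (q i) y.2 := fun h2 => h (e3.2 h2)
            omega
        have f1 := hpos x.2 hx.1.2
        have f2 := hpos y.2 hy.1.2
        rw [e4] at f1
        have f3 : (q i).coeff 1 * ((x.2 : ℤ) - y.2) = 0 := by linear_combination f2 - f1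
        have f4 : x.2 = y.2 := by
          rcases mul_eq_zero.1 f3 with h | h
          · exact absurd h ha
          · have := sub_eq_zero.1 h
            exact_mod_cast this
        exact Prod.ext e1 f4
    have h2 : ((Ioc X (2 * X)) ×ˢ (D i ×ˢ (univ : Finset Bool))).card = X * ((D i).card * 2) := by
      rw [card_product, card_product, Nat.card_Ioc, card_univ, Fintype.card_bool]
      congr 1
      omega
    rw [h2] at h1
    have h3 : (((((Ioc X (2 * X)) ×ˢ (Ioc X (2 * X))).filter fun x : ℕ × ℕ => dst (vq (q i) x.1) (vq (q i) x.2) ∈ D i).card : ℕ) : ℝ) ≤ ((X * ((D i).card * 2) : ℕ) : ℝ) := by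
      exact_mod_cast h1
    refine h3.trans (le_of_eq ?_)
    push_cast
    ring
  have hKz : (K : ℝ) ≤ z := by exact_mod_cast hK
  have hU : (Uz z : ℝ) ≤ W ^ 24 := by
    calc (Uz z : ℝ) ≤ Real.exp (12 * z) := Uz_le_exp z
      _ = (Real.exp ((z : ℝ) / 2)) ^ 24 := by rw [← Real.exp_nat_mul]; ring_nf
      _ ≤ W ^ 24 := by gcongr
  have hz2 : 2 * (z : ℝ) ≤ W ^ 4 := by
    calc 2 * (z : ℝ) ≤ Real.exp z * Real.exp z := by
          have := Real.add_one_le_exp (z : ℝ)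
          have h2 : (2 : ℝ) ≤ Real.exp z := by linarith
          have h3 : (z : ℝ) ≤ Real.exp z := by linarith
          gcongr
      _ = (Real.exp ((z : ℝ) / 2)) ^ 4 := by rw [← Real.exp_add, ← Real.exp_nat_mul]; ring_nf
      _ ≤ W ^ 4 := by gcongr
  have hone : ∀ i, 2 * (X : ℝ) * (D i).card ≤ 2 * (X : ℝ) * (W ^ 24 * X / W ^ (2 * a₀ + 50)) := by
    intro i
    have h1 := (hD i).2
    have h2 : (H i : ℝ) ≤ Uz z * X := by exact_mod_cast (hS.scale i).2
    have h3 : (H i : ℝ) ≤ W ^ 24 * X := h2.trans (by gcongr)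
    have h4 : ((D i).card : ℝ) ≤ W ^ 24 * X / W ^ (2 * a₀ + 50) := h1.trans (by gcongr)
    gcongr
  calc ((exq X q D).card : ℝ) ≤ ∑ i : Fin K, (2 * (X : ℝ) * (W ^ 24 * X / W ^ (2 * a₀ + 50))) :=
        (exq_le X q D).trans (sum_le_sum fun i _ => (key i).trans (hone i))
    _ = K * (2 * (X : ℝ) * (W ^ 24 * X / W ^ (2 * a₀ + 50))) := by rw [sum_const, card_univ, Fintype.card_fin, nsmul_eq_mul]
    _ ≤ z * (2 * (X : ℝ) * (W ^ 24 * X / W ^ (2 * a₀ + 50))) := by gcongr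
    _ = (2 * z) * ((X : ℝ) ^ 2 * W ^ 24 / W ^ (2 * a₀ + 50)) := by ring
    _ ≤ W ^ 4 * ((X : ℝ) ^ 2 * W ^ 24 / W ^ (2 * a₀ + 50)) := by gcongr
    _ ≤ W ^ 10 * ((X : ℝ) ^ 2 * W ^ 24 / W ^ (2 * a₀ + 50)) :=
      mul_le_mul_of_nonneg_right (pow_le_pow_right₀ hW1 (by norm_num)) (by positivity)
    _ = (X : ℝ) ^ 2 / W ^ (2 * (a₀ + 8)) := by
      rw [show 2 * a₀ + 50 = 2 * (a₀ + 8) + 24 + 10 by ring, pow_add, pow_add]
      field_simp

open Classical in
/-- the series of most admissible constants converges to a positive number -/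
theorem conv_linE : ∀ ε : ℝ, 0 < ε → ∃ M : ℝ, 64 ≤ M ∧ ∀ (z X K : ℕ) (H : Fin K → ℕ) (q : Fin K → Polynomial ℤ), M ≤ Real.log (Real.log X) →
    64 * Real.log (Real.log X) ≤ z → 64 * z * Real.log (Real.log X) ≤ Real.log X → 16 * (K + 1) ≤ z → SysE 1 z X X H q →
    (((ATQ H q).filter fun s => ¬ (0 < singQ q s ∧ Tendsto (singPQ q s) atTop (nhds (singQ q s)))).card : ℝ) ≤ ε * (ATQ H q).card := by
  intro ε hε
  obtain ⟨Y₀, hf⟩ := far_most (ε / 2) (by positivity)
  refine ⟨64 + Y₀, by have : (0 : ℝ) ≤ Y₀ := by positivity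
                      linarith, ?_⟩
  have p2 : (0 : ℝ) ≤ Y₀ := by positivity
  intro z X K H q hX hz hzY hK hS
  have hM64 : 64 ≤ 64 + (Y₀ : ℝ) := by linarith
  obtain ⟨hL0, hLM, hzM, hzL, hzl, hXe, hYe, hLe, hl64, hlL, hYXl⟩ := elemQ hM64 hX le_rfl hz hzY
  have hz0 : (0 : ℝ) < z := by linarith
  have hzl' : 64 * (z : ℝ) ≤ z * Real.log (Real.log X) := by nlinarith
  have hzLY : 4096 * (z : ℝ) ≤ Real.log X := by linarith
  have hLYY : Real.log X ≤ X := by
    have := Real.add_one_le_exp (Real.log X)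
    rw [← hXe] at this; linarith
  have hY₀ : Y₀ ≤ X := by
    have : (Y₀ : ℝ) ≤ X := by linarith
    exact_mod_cast this
  have hW40 : (PW z : ℝ) ^ 40 ≤ X := by
    calc (PW z : ℝ) ^ 40 ≤ (Real.exp (2 * z)) ^ 40 := by gcongr; exact PW_le Pool.Agent.Q111.SZ.t_PWB z
      _ = Real.exp (80 * z) := by rw [← Real.exp_nat_mul]; ring_nf
      _ ≤ Real.exp (Real.log X) := Real.exp_le_exp.2 (by linarith)
      _ = X := hXe.symm
  have hU2 : (Uz z : ℝ) ^ 2 ≤ X := by
    calc (Uz z : ℝ) ^ 2 ≤ (Real.exp (12 * z)) ^ 2 := by gcongr; exact Uz_le_exp z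
      _ = Real.exp (24 * z) := by rw [← Real.exp_nat_mul]; ring_nf
      _ ≤ Real.exp (Real.log X) := Real.exp_le_exp.2 (by linarith)
      _ = X := hXe.symm
  have h8 : 8 * (K + 1) * PW z ≤ X := by
    have h1 : ((8 * (K + 1) * PW z : ℕ) : ℝ) ≤ (X : ℝ) := by
      have hKz : ((16 * (K + 1) : ℕ) : ℝ) ≤ z := by exact_mod_cast hK
      rw [Nat.cast_mul]
      push_cast at hKz ⊢
      calc (8 * ((K : ℝ) + 1)) * PW z ≤ Real.exp z * Real.exp (2 * z) := by
            gcongr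
            · linarith [Real.add_one_le_exp (z : ℝ)]
            · exact PW_le Pool.Agent.Q111.SZ.t_PWB z
        _ = Real.exp (3 * z) := by rw [← Real.exp_add]; ring_nf
        _ ≤ Real.exp (Real.log X) := Real.exp_le_exp.2 (by linarith)
        _ = X := hXe.symm
    exact_mod_cast h1
  have hfb := hf z X K H q hY₀ hK hS (by linarith) hW40 hU2
  obtain ⟨E, hE⟩ : ∃ E : (Fin K → ℕ) → Prop, ∀ s, E s ↔ ¬ (AdmQ q s → 0 < singQ q s ∧ Tendsto (singPQ q s) atTop (nhds (singQ q s))) :=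
    ⟨_, fun _ => Iff.rfl⟩
  have ht := transE (E := E) (η := ε / 2) (by omega) hS h8 (by
    calc _ ≤ ∑ _b ∈ AdQ (PW z) q, ε / 2 := by
          apply sum_le_sum
          intro b _
          apply div_le_of_le_mul₀ (Nat.cast_nonneg _) (by positivity)
          refine le_trans ?_ (hfb b)
          have : ((SbQ H b).filter fun s => E s) ⊆
              ((SbQ H b).filter fun s => ¬ (AdmQ q s → 0 < singQ q s ∧ Tendsto (singPQ q s) atTop (nhds (singQ q s)) ∧
                |singQ q s - singPQ q s (w0 X)| ≤ ε / 2 * singPQ q s (w0 X))) := by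
            intro s hs
            rw [mem_filter] at hs ⊢
            rw [hE] at hs
            exact ⟨hs.1, fun h => hs.2 fun had => ⟨(h had).1, (h had).2.1⟩⟩
          exact_mod_cast card_le_card this
      _ = ε / 2 * (AdQ (PW z) q).card := by rw [sum_const, nsmul_eq_mul]; ring)
  have e : (ATQ H q).filter (fun s => ¬ (0 < singQ q s ∧ Tendsto (singPQ q s) atTop (nhds (singQ q s)))) =
      (ATQ H q).filter (fun s => E s) := by
    apply filter_congr
    intro s hs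
    unfold ATQ at hs
    rw [mem_filter] at hs
    have had := hs.2
    rw [hE]
    constructor
    · intro h h2
      exact h (h2 had)
    · intro h h2
      exact h fun _ => h2
  rw [e]
  refine ht.trans (le_of_eq ?_)
  ring

/-- the result for systems of linear forms with scale `X` -/
def PLE (X Q : ℕ) (ε : ℝ) : Prop := ∀ (K : ℕ) (H : Fin K → ℕ) (q : Fin K → Polynomial ℤ), 4 * (K + 1) ≤ Q → SysE 1 Q X X H q → HLC X H q ε

theorem sufE {a₀ κ : ℕ} (hκ : 64 ≤ κ) (vb : VBE 1 a₀ κ) : SUFP PLE := by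
  obtain ⟨B, C₀, hB, hC₀, hin⟩ := inputsE anE Pool.Agent.Q53.LQ.H2U.main (2 * (a₀ + 11)) (2 * a₀ + 50) (by omega)
  have hκr : (64 : ℝ) ≤ κ := by exact_mod_cast hκ
  refine ⟨B, C₀ + κ, hB, by linarith, fun ε hε => ?_⟩
  obtain ⟨M₁, hM₁, hexq⟩ := exq_linE a₀
  obtain ⟨M₂, hM₂, hnear⟩ := near_linE (min (ε / 2) 1 / 16) (ε / 2 / 8) (by positivity) (by positivity)
  obtain ⟨M₃, hM₃, hh⟩ := hls_boundE hκ vb t_MBQ Pool.Agent.Q111.SZ.t_PWB (ε / 2) (by positivity)
  obtain ⟨M₄, hM₄, hcv⟩ := conv_linE (ε / 2) (by positivity)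
  refine ⟨M₁ + M₂ + M₃ + M₄ + C₀ + κ, by linarith, ?_⟩
  intro z X ω T hl hz hzL hω hω4 hωL hT hTz hTL hZF Q hQ K H q hKQ hSys
  have hlY0 : 0 < Real.log (Real.log X) := by linarith
  set l := Real.log (Real.log X) with hldef
  have hz0 : (0 : ℝ) ≤ z := by positivity
  have hzl0 : 0 ≤ (z : ℝ) * l := by positivity
  have hlog0 : 0 ≤ Real.log X := Real.log_natCast_nonneg X
  have hC₀l : 0 ≤ C₀ * l := by positivity
  have hκl : 0 ≤ (κ : ℝ) * l := by positivity
  have hS : SysE 1 z X X H q := hSys.mono (by omega)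
  have hC₀zl : 0 ≤ C₀ * (z * l) := by positivity
  have hκzl : 0 ≤ (κ : ℝ) * (z * l) := by positivity
  have c1 : C₀ * l ≤ z := by nlinarith
  have c2 : C₀ * z * l ≤ Real.log X := by nlinarith
  have c3 : C₀ * l ≤ ω * Real.log X := by nlinarith
  have c4 : 7 * √(Real.log X) ≤ Real.log T := by
    refine le_trans ?_ hTL
    have := Real.sqrt_nonneg (Real.log X)
    linarith
  have c5 : 64 * l ≤ z := by
    have : (64 : ℝ) * l ≤ C₀ * l := by gcongr
    linarith
  have c6 : (κ : ℝ) * z * l ≤ Real.log X := by nlinarith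
  have c7 : 64 * z * l ≤ Real.log X := by
    have h1 : (64 : ℝ) * z * l ≤ κ * z * l := by gcongr
    linarith
  have hIN : ∀ i, INQ (2 * (a₀ + 11)) (2 * a₀ + 50) z (H i) := fun i =>
    hin z X ω T (by linarith) c1 c2 hω hω4 c3 hT hTz c4 hZF (H i) (hS.scale i).1 (hS.scale i).2
  choose h1 D hD hDc h2 using hIN
  have hKz : K ≤ z := by omega
  have hex := hexq z X K H q D (by linarith) c5 c7 hKz hS (fun i => ⟨hD i, hDc i⟩)
  have hn := hnear z X K H q (by linarith) c5 c7 (by omega) hS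
  exact hlc_of hε (hh z X X K H q D (by linarith) c5 c6 le_rfl (by omega) hS (fun i => ⟨h1 i, h2 i⟩) hex (singQ q) hn)
    (hcv z X K H q (by linarith) c5 c7 (by omega) hS)

end Pool.Agent.Q145.LE
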