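import Pool.Agent.Q145.LE.Ta
import Pool.Agent.Q145.LE.Far
import Pool.Agent.Q145.LE.Fi
import Pool.Agent.Q145.LQ.Near

/-!
# Project LE: the singular series of most systems of linear forms (adapted from `Pool/Agent/Q145/LQ/Near.lean`, `Pool/Agent/Q150/LQ/FARQ.lean`)
-/

set_option autoImplicit false
set_option linter.all false

namespace Pool.Agent.Q145.LE

open Finset Filter
open Pool.Agent.Q145.SZ Pool.Agent.Q145.LQ Pool.Agent.Q150.LQ

open Classical in
/-- the truncated series (general degree) -/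
theorem near_truncE : ∀ e δ : ℝ, 0 < e → 0 < δ → ∃ M : ℝ, 64 ≤ M ∧ ∀ (d z w Y X K : ℕ) (H : Fin K → ℕ) (q : Fin K → Polynomial ℤ), M ≤ Real.log (Real.log X) →
    64 * Real.log (Real.log X) ≤ z → 64 * z * Real.log (Real.log X) ≤ Real.log Y → Y ≤ X → 1 ≤ d → 8 * d * (K + 1) ≤ z → SysE d z Y X H q → z ≤ w → (w : ℝ) ^ 20 ≤ X →
    NearQ z H q (fun s => singPQ q s w) e δ := by
  intro e δ he hδ
  obtain ⟨C, X₀, z₀, hC, ht⟩ := tailE e he
  set M : ℝ := 64 + X₀ + z₀ + Real.exp (C / δ) with hM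
  have p1 := Real.exp_pos (C / δ)
  have p2 : (0 : ℝ) ≤ X₀ := by positivity
  have p3 : (0 : ℝ) ≤ z₀ := by positivity
  have hM64 : 64 ≤ M := by linarith
  refine ⟨M, hM64, ?_⟩
  intro d z w Y X K H q hX hz hzY hYX hd hK hS hzw hw b
  obtain ⟨hL0, hLM, hzM, hzL, hzl, hXe, hYe, hLe, hl64, hlL, hYXl⟩ := elemQ hM64 hX hYX hz hzY
  have hXL : Real.log X ≤ X := by
    have := Real.add_one_le_exp (Real.log X)
    rw [← hXe] at this; linarith
  have hX0 : X₀ ≤ X := by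
    have : (X₀ : ℝ) ≤ X := by linarith
    exact_mod_cast this
  have hz0 : z₀ ≤ z := by
    have : (z₀ : ℝ) ≤ z := by linarith
    exact_mod_cast this
  have hzpos : (0 : ℝ) < z := by linarith
  have hW20 : (PW z : ℝ) ^ 20 ≤ X := by
    calc (PW z : ℝ) ^ 20 ≤ (Real.exp (2 * z)) ^ 20 := by gcongr; exact PW_le Pool.Agent.Q111.SZ.t_PWB z
      _ = Real.exp (40 * z) := by rw [← Real.exp_nat_mul]; ring_nf
      _ ≤ Real.exp (Real.log X) := Real.exp_le_exp.2 (by linarith)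
      _ = X := hXe.symm
  have h1 := ht d z w Y X K H q hX0 hz0 hd hK hS (by linarith) hW20 hzw hw b
  have hlz : C / δ ≤ Real.log z := by
    rw [Real.le_log_iff_exp_le hzpos]
    linarith
  have hlz0 : 0 < Real.log z := lt_of_lt_of_le (by positivity) hlz
  have h2 : C / Real.log z ≤ δ := by
    rw [div_le_iff₀ hlz0]
    rw [div_le_iff₀ hδ] at hlz
    linarith
  have h3 : (0 : ℝ) ≤ (SbQ H b).card := Nat.cast_nonneg _
  have h4 : (((SbQ H b).filter fun s => ¬ (AdmQ q s → |singPQ q s w - singPQ q s z| ≤ e * singPQ q s z)).card : ℝ) ≤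
      (((SbQ H b).filter fun s => ¬ (|singPQ q s w - singPQ q s z| ≤ e * singPQ q s z)).card : ℝ) := by
    have : ((SbQ H b).filter fun s => ¬ (AdmQ q s → |singPQ q s w - singPQ q s z| ≤ e * singPQ q s z)) ⊆
        ((SbQ H b).filter fun s => ¬ (|singPQ q s w - singPQ q s z| ≤ e * singPQ q s z)) := by
      intro s hs
      rw [mem_filter] at hs ⊢
      refine ⟨hs.1, fun h => hs.2 fun _ => h⟩
    exact_mod_cast card_le_card this
  exact h4.trans (h1.trans (mul_le_mul_of_nonneg_right h2 h3))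

theorem ev40 (C D : ℝ) (hC : 0 < C) : ∀ᶠ Y : ℕ in atTop,
    C * Real.log Y ^ 4 ≤ (Y : ℝ) ^ (1 / 40 : ℝ) ∧ D ≤ Real.log Y := by
  have h1 : ∀ᶠ x : ℝ in atTop, C * Real.log x ^ 4 ≤ x ^ (1 / 40 : ℝ) := by
    have h2 := (isLittleO_log_rpow_rpow_atTop (4 : ℝ) (show (0 : ℝ) < 1 / 40 by norm_num)).bound
      (show 0 < 1 / C by positivity)
    filter_upwards [h2, eventually_ge_atTop (1 : ℝ)] with x hx hx1
    have h3 : 0 ≤ Real.log x := Real.log_nonneg hx1
    rw [Real.norm_of_nonneg (by positivity), Real.norm_of_nonneg (by positivity)] at hx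
    have h4 : Real.log x ^ (4 : ℝ) = Real.log x ^ 4 := by
      rw [← Real.rpow_natCast]
      norm_num
    rw [h4] at hx
    calc C * Real.log x ^ 4 ≤ C * (1 / C * x ^ (1 / 40 : ℝ)) := by gcongr
      _ = x ^ (1 / 40 : ℝ) := by field_simp
  have h2 : ∀ᶠ x : ℝ in atTop, D ≤ Real.log x := Real.tendsto_log_atTop.eventually_ge_atTop D
  exact (tendsto_natCast_atTop_atTop (R := ℝ)).eventually (h1.and h2)

/-- bounds of the coefficients -/
theorem coefE {z X H : ℕ} {q : Polynomial ℤ} (hq : q.natDegree = 1) (hX : 2 ≤ X)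
    (hv : ∀ n ∈ Ioc X (2 * X), 5 * (H : ℤ) < 4 * q.eval (n : ℤ) ∧ q.eval (n : ℤ) ≤ 2 * H) {s : ℕ} (hs : s ≤ H) :
    |q.coeff 1| ≤ 9 * H ∧ |cf q s| ≤ 9 * H := by
  have h1 := hv (X + 1) (by rw [mem_Ioc]; omega)
  have h2 := hv (2 * X) (by rw [mem_Ioc]; omega)
  rw [eval_lin hq] at h1 h2
  push_cast at h1 h2
  have hX' : (2 : ℤ) ≤ X := by exact_mod_cast hX
  have hH : (0 : ℤ) ≤ H := by positivity
  have hs' : (s : ℤ) ≤ H := by exact_mod_cast hs
  have hs0 : (0 : ℤ) ≤ s := by positivity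
  set a := q.coeff 1
  set c := q.coeff 0
  have e : |a| * (X - 1) ≤ 2 * H := by
    have e1 : a * (X - 1) = (a * (2 * X) + c) - (a * (X + 1) + c) := by ring
    have e2 : |a * (X - 1)| ≤ 2 * H := by
      rw [e1, abs_le]
      constructor <;> linarith
    rw [abs_mul, abs_of_nonneg (show (0 : ℤ) ≤ (X : ℤ) - 1 by linarith)] at e2
    exact e2
  have ha : |a| ≤ 2 * H := by
    have : |a| * 1 ≤ |a| * (X - 1) := mul_le_mul_of_nonneg_left (by linarith) (abs_nonneg _)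
    linarith
  refine ⟨by linarith, ?_⟩
  have e3 : |a * (X + 1)| ≤ 6 * H := by
    rw [abs_mul, abs_of_nonneg (show (0 : ℤ) ≤ (X : ℤ) + 1 by linarith)]
    have : |a| * (X + 1) ≤ |a| * (3 * (X - 1)) := mul_le_mul_of_nonneg_left (by linarith) (abs_nonneg _)
    linarith
  unfold cf
  rw [abs_le] at e3 ⊢
  constructor <;> linarith [e3.1, e3.2]

open Classical in
/-- the large primes, for most constants -/
theorem far_most : ∀ ε : ℝ, 0 < ε → ∃ X₀ : ℕ, ∀ (z X K : ℕ) (H : Fin K → ℕ) (q : Fin K → Polynomial ℤ), X₀ ≤ X → 16 * (K + 1) ≤ z → SysE 1 z X X H q →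
    (z : ℝ) ≤ Real.log X → (PW z : ℝ) ^ 40 ≤ X → (Uz z : ℝ) ^ 2 ≤ X → ∀ b : Fin K → ZMod (PW z),
    (((SbQ H b).filter fun s => ¬ (AdmQ q s → 0 < singQ q s ∧ Tendsto (singPQ q s) atTop (nhds (singQ q s)) ∧
      |singQ q s - singPQ q s (w0 X)| ≤ ε * singPQ q s (w0 X))).card : ℝ) ≤ ε * (SbQ H b).card := by
  intro ε hε
  obtain ⟨X₀, hX₀⟩ := Filter.eventually_atTop.1 (ev40 (1000 + 1000 / ε) (1 + 1 / ε) (by positivity))
  refine ⟨max X₀ 2, ?_⟩
  intro z X K H q hX hK hSys hz hW hU b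
  have hY0 : X₀ ≤ X := (le_max_left _ _).trans hX
  have hX2 : 2 ≤ X := (le_max_right _ _).trans hX
  have hq : ∀ i, (q i).natDegree = 1 := fun i => le_antisymm (hSys.deg i).2 (hSys.deg i).1
  obtain ⟨hlog4, hlogD⟩ := hX₀ X hY0
  set L : ℝ := Real.log X with hL
  have hYpos : (0 : ℝ) < X := by exact_mod_cast (show 0 < X by omega)
  obtain ⟨r, hr⟩ : ∃ r : ℝ, r = (X : ℝ) ^ (1 / 40 : ℝ) := ⟨_, rfl⟩
  rw [← hr] at hlog4
  have hr0 : 0 < r := by
    rw [hr]
    exact Real.rpow_pos_of_pos hYpos _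
  have hX40 : (X : ℝ) = r ^ 40 := by
    rw [hr, ← Real.rpow_natCast, ← Real.rpow_mul hYpos.le]
    norm_num
  have hL1 : 1 ≤ L := by
    have : 0 < 1 / ε := by positivity
    linarith
  have hC0 : 0 < 1000 / ε := by positivity
  have hL3 : L ≤ L ^ 4 := by nlinarith [pow_le_pow_right₀ hL1 (show 1 ≤ 4 by norm_num)]
  have hrL : 1000 * L ^ 4 ≤ r := by nlinarith [pow_pos (zero_lt_one.trans_le hL1) 4]
  have hrLε : 1000 / ε * L ^ 4 ≤ r := by nlinarith [pow_pos (zero_lt_one.trans_le hL1) 4]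
  have hr1 : 1000 ≤ r := by linarith
  have hKz : (16 : ℝ) * (K + 1) ≤ z := by exact_mod_cast hK
  have hK0 : (0 : ℝ) ≤ K := Nat.cast_nonneg _
  have hKL : (K : ℝ) ≤ L := by linarith
  have hz1 : (1 : ℝ) ≤ z := by linarith
  -- the cut-off
  obtain ⟨w, hw⟩ : ∃ w : ℕ, w = w0 X := ⟨_, rfl⟩
  have hw1 : r < 2 * (w : ℝ) := by
    have h1 := w0_lt X
    rw [← hw] at h1
    have h2 : (X : ℝ) < (((2 * w) ^ 40 : ℕ) : ℝ) := by exact_mod_cast h1
    rw [hX40] at h2
    push_cast at h2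
    exact lt_of_pow_lt_pow_left₀ 40 (by positivity) h2
  have hzw' : (z : ℝ) ≤ w := by linarith
  have hzw : z ≤ w := by exact_mod_cast hzw'
  have hw3 : 3 ≤ w := by omega
  have hw0 : (0 : ℝ) < w := by exact_mod_cast (show 0 < w by omega)
  have hKw : 8 * (K + 1) ^ 2 ≤ w := by
    have h1 : 8 * ((K : ℝ) + 1) ^ 2 ≤ w := by
      have h2 : (K : ℝ) + 1 ≤ L := by linarith
      have h3 : ((K : ℝ) + 1) ^ 2 ≤ L ^ 2 := by gcongr
      have h4 : L ^ 2 ≤ L ^ 4 := pow_le_pow_right₀ hL1 (by norm_num)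
      linarith
    exact_mod_cast h1
  have hHX : ∀ i, 9 * H i ≤ X ^ 2 := by
    intro i
    have h1 : (9 * H i : ℝ) ≤ (X : ℝ) ^ 2 := by
      have h2 : (H i : ℝ) ≤ Uz z * X := by exact_mod_cast (hSys.scale i).2
      have h3 : (9 : ℝ) * Uz z ≤ X := by
        have h4 : (9 * (Uz z : ℝ)) ≤ (Uz z : ℝ) ^ 2 := by
          have h5 : (9 : ℝ) ≤ Uz z := by
            have h6 : 9 ≤ Uz z := le_trans (by omega) (le_Uz z)
            exact_mod_cast h6
          nlinarith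
        linarith
      calc (9 * H i : ℝ) ≤ 9 * (Uz z * X) := by linarith
        _ = 9 * Uz z * X := by ring
        _ ≤ X * X := by gcongr
        _ = (X : ℝ) ^ 2 := by ring
    exact_mod_cast h1
  -- good tuples
  have hgood : ∀ s ∈ SbQ H b, (∀ i j, i ≠ j → dtl q s i j ≠ 0) →
      (AdmQ q s → 0 < singQ q s ∧ Tendsto (singPQ q s) atTop (nhds (singQ q s)) ∧
        |singQ q s - singPQ q s (w0 X)| ≤ ε * singPQ q s (w0 X)) := by
    intro s hs hnp hA
    unfold SbQ at hs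
    rw [Fintype.mem_piFinset] at hs
    have hsI : ∀ i, s i ∈ Icc 1 (H i) := by
      intro i
      have h1 := hs i
      unfold cls at h1
      exact (mem_filter.1 h1).1
    have hco := fun i => coefE (z := z) (hq i) hX2 (hSys.val i) (mem_Icc.1 (hsI i)).2
    have hMM : ∀ i, (9 * H i : ℤ) ≤ ((X ^ 2 : ℕ) : ℤ) := fun i => by exact_mod_cast hHX i
    obtain ⟨g1, g2, g3⟩ := farE hq s (M := X ^ 2) (Y := w) (by nlinarith) hKw
      (fun p hp hwp i => by
        have := hSys.lead i p hp (by omega)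
        rwa [lc_lin (hq i)] at this)
      (fun i => (hco i).1.trans (hMM i)) (fun i => (hco i).2.trans (hMM i)) hnp hA
    refine ⟨g1, g2, ?_⟩
    rw [← hw]
    have hβ : 8 * (K : ℝ) ^ 2 * Real.log ((X ^ 2 : ℕ) : ℝ) / w ≤ 32 * L ^ 3 / r := by
      push_cast
      rw [Real.log_pow]
      push_cast
      rw [← hL]
      have h1 : (K : ℝ) ^ 2 ≤ L ^ 2 := by gcongr
      rw [div_le_div_iff₀ hw0 hr0]
      have h6 : 8 * (K : ℝ) ^ 2 * (2 * L) ≤ 16 * L ^ 3 := by
        calc 8 * (K : ℝ) ^ 2 * (2 * L) ≤ 8 * L ^ 2 * (2 * L) := by gcongr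
          _ = 16 * L ^ 3 := by ring
      have h7 : (0 : ℝ) ≤ 16 * L ^ 3 := by positivity
      calc 8 * (K : ℝ) ^ 2 * (2 * L) * r ≤ 16 * L ^ 3 * r := by gcongr
        _ ≤ 16 * L ^ 3 * (2 * w) := by gcongr
        _ = 32 * L ^ 3 * w := by ring
    have hL34 : L ^ 3 ≤ L ^ 4 := pow_le_pow_right₀ hL1 (by norm_num)
    have e1 : 32 * L ^ 3 / r ≤ 32 / 1000 := by
      rw [div_le_div_iff₀ hr0 (by norm_num)]
      linarith
    have e3 : 32 * L ^ 3 / r ≤ 32 / 1000 * ε := by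
      rw [div_le_iff₀ hr0]
      have h7 : 1000 * L ^ 4 ≤ ε * r := by
        have h8 : 1000 / ε * L ^ 4 = 1000 * L ^ 4 / ε := by ring
        rw [h8, div_le_iff₀ hε] at hrLε
        linarith
      nlinarith
    have h9 := close g1 (singPQ_pos hA w) (g3.trans hβ) (by linarith)
    refine h9.trans ?_
    have hP := singPQ_pos hA w
    nlinarith
  -- sizes of the classes
  have hWr : (PW z : ℝ) ≤ r := by
    have h1 : (PW z : ℝ) ^ 40 ≤ r ^ 40 := by
      refine hW.trans (le_of_eq hX40)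
    exact le_of_pow_le_pow_left₀ (by norm_num) hr0.le h1
  have hW0 : (0 : ℝ) < PW z := by exact_mod_cast Nat.pos_of_ne_zero (NeZero.ne (PW z))
  have hT : ∀ i, r ^ 39 / 2 ≤ ((cls (H i) (b i)).card : ℝ) := by
    intro i
    have h1 := (abs_le.1 (Pool.Agent.Q261.SZ.card_cls (H i) (b i))).1
    have h2 : r ^ 40 ≤ H i := by
      rw [← hX40]
      exact_mod_cast (hSys.scale i).1
    have h3 : r ^ 39 ≤ (H i : ℝ) / PW z := by
      rw [le_div_iff₀ hW0]
      calc r ^ 39 * PW z ≤ r ^ 39 * r := by gcongr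
        _ = r ^ 40 := by ring
        _ ≤ H i := h2
    have h4 : r ≤ r ^ 39 := le_self_pow₀ (by linarith) (by norm_num)
    linarith
  set N : ℝ := ((SbQ H b).card : ℝ) with hN
  have hN0 : 0 ≤ N := Nat.cast_nonneg _
  have hbad2 : ∀ x : Fin K × Fin K, x.1 ≠ x.2 → (((SbQ H b).filter fun s => dtl q s x.1 x.2 = 0).card : ℝ) ≤
      2 / r ^ 3 * N := by
    rintro ⟨i, j⟩ hij
    dsimp only at hij ⊢
    have h1 := count_upd (fun i => cls (H i) (b i)) j (fun s => dtl q s i j = 0) 1 (by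
      intro s _
      rw [card_le_one]
      intro t ht t' ht'
      rw [mem_filter] at ht ht'
      have e1 := ht.2
      have e2 := ht'.2
      unfold dtl cf at e1 e2
      simp only [Function.update_self, Function.update_of_ne hij] at e1 e2
      have e3 : (q i).coeff 1 * ((t : ℤ) - t') = 0 := by linear_combination e1 - e2
      rcases mul_eq_zero.1 e3 with e4 | e4
      · exact absurd e4 (c1_ne (hq i))
      · have e5 : (t : ℤ) = t' := sub_eq_zero.1 e4
        exact_mod_cast e5)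
    have h1' : ((SbQ H b).filter fun s => dtl q s i j = 0).card * (cls (H j) (b j)).card ≤ 1 * (SbQ H b).card := h1
    have h2 : (((SbQ H b).filter fun s => dtl q s i j = 0).card : ℝ) * ((cls (H j) (b j)).card : ℝ) ≤ 1 * N := by
      rw [hN]
      exact_mod_cast h1'
    have h3 : (((SbQ H b).filter fun s => dtl q s i j = 0).card : ℝ) * (r ^ 39 / 2) ≤ r ^ 36 * N := by
      calc _ ≤ (((SbQ H b).filter fun s => dtl q s i j = 0).card : ℝ) * ((cls (H j) (b j)).card : ℝ) :=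
            mul_le_mul_of_nonneg_left (hT j) (Nat.cast_nonneg _)
        _ ≤ 1 * N := h2
        _ ≤ r ^ 36 * N := mul_le_mul_of_nonneg_right (one_le_pow₀ (by linarith)) hN0
    have h4 : 2 / r ^ 3 * N = (r ^ 36 * N) / (r ^ 39 / 2) := by
      field_simp
    rw [h4, le_div_iff₀ (by positivity)]
    exact h3
  -- the union bound
  have hsub : ((SbQ H b).filter fun s => ¬ (AdmQ q s → 0 < singQ q s ∧
      Tendsto (singPQ q s) atTop (nhds (singQ q s)) ∧
      |singQ q s - singPQ q s (w0 X)| ≤ ε * singPQ q s (w0 X))) ⊆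
      ((univ : Finset (Fin K × Fin K)).filter (fun x => x.1 ≠ x.2)).biUnion fun x =>
        (SbQ H b).filter fun s => dtl q s x.1 x.2 = 0 := by
    intro s hs
    rw [mem_filter] at hs
    by_contra hcon
    rw [mem_biUnion] at hcon
    apply hs.2
    refine hgood s hs.1 (fun i j hij h => ?_)
    exact hcon ⟨(i, j), mem_filter.2 ⟨mem_univ _, hij⟩, mem_filter.2 ⟨hs.1, h⟩⟩
  have hcard := (card_le_card hsub).trans card_biUnion_le
  have hcard' : ((((SbQ H b).filter fun s => ¬ (AdmQ q s → 0 < singQ q s ∧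
      Tendsto (singPQ q s) atTop (nhds (singQ q s)) ∧
      |singQ q s - singPQ q s (w0 X)| ≤ ε * singPQ q s (w0 X))).card : ℕ) : ℝ) ≤
      ∑ x ∈ (univ : Finset (Fin K × Fin K)).filter (fun x => x.1 ≠ x.2), (((SbQ H b).filter fun s =>
        dtl q s x.1 x.2 = 0).card : ℝ) := by
    exact_mod_cast hcard
  refine hcard'.trans ?_
  have hs2 := sum_le_card_nsmul ((univ : Finset (Fin K × Fin K)).filter (fun x => x.1 ≠ x.2)) _ _
    fun x hx => hbad2 x (mem_filter.1 hx).2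
  rw [nsmul_eq_mul] at hs2
  have hpairs : ((((univ : Finset (Fin K × Fin K)).filter (fun x => x.1 ≠ x.2)).card : ℕ) : ℝ) ≤ (K : ℝ) ^ 2 := by
    have h1 : ((univ : Finset (Fin K × Fin K)).filter (fun x => x.1 ≠ x.2)).card ≤ K * K := by
      refine (card_filter_le _ _).trans ?_
      rw [card_univ, Fintype.card_prod, Fintype.card_fin]
    have h2 : ((((univ : Finset (Fin K × Fin K)).filter (fun x => x.1 ≠ x.2)).card : ℕ) : ℝ) ≤ ((K * K : ℕ) : ℝ) := by
      exact_mod_cast h1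
    refine h2.trans (le_of_eq ?_)
    push_cast
    ring
  have hnn : 0 ≤ 2 / r ^ 3 * N := mul_nonneg (div_nonneg (by norm_num) (pow_nonneg hr0.le 3)) hN0
  have hs3 : ((((univ : Finset (Fin K × Fin K)).filter (fun x => x.1 ≠ x.2)).card : ℕ) : ℝ) * (2 / r ^ 3 * N) ≤
      (K : ℝ) ^ 2 * (2 / r ^ 3 * N) := mul_le_mul_of_nonneg_right hpairs hnn
  have hfin : (K : ℝ) ^ 2 * (2 / r ^ 3) ≤ ε := by
    have h1 : (K : ℝ) ^ 2 ≤ 2 * L ^ 4 := by
      have h2 : (K : ℝ) ^ 2 ≤ L ^ 2 := by gcongr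
      have h3 : L ^ 2 ≤ L ^ 4 := pow_le_pow_right₀ hL1 (by norm_num)
      linarith
    have h2 : r ≤ r ^ 3 := le_self_pow₀ (by linarith) (by norm_num)
    have h3 : 2 / r ^ 3 ≤ 2 / r := by gcongr
    have h7 : 1000 * L ^ 4 ≤ ε * r := by
      have h8 : 1000 / ε * L ^ 4 = 1000 * L ^ 4 / ε := by ring
      rw [h8, div_le_iff₀ hε] at hrLε
      linarith
    calc (K : ℝ) ^ 2 * (2 / r ^ 3) ≤ 2 * L ^ 4 * (2 / r) := by gcongr
      _ = 4 * L ^ 4 / r := by ring
      _ ≤ ε := by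
        rw [div_le_iff₀ hr0]
        nlinarith [pow_pos (zero_lt_one.trans_le hL1) 4]
  calc _ ≤ (K : ℝ) ^ 2 * (2 / r ^ 3 * N) := by linarith
    _ = ((K : ℝ) ^ 2 * (2 / r ^ 3)) * N := by ring
    _ ≤ ε * N := mul_le_mul_of_nonneg_right hfin hN0

end Pool.Agent.Q145.LE
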