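import Pool.Agent.Q145.LQ.Fin
import Pool.Agent.Q151.LQ.MBQ
import Pool.Agent.Q210.LQ.TRANSQ
import Pool.Agent.Q68.LQ.WCBQ

/-!
# Project LE (helper145): long systems of forms with large smooth slopes. Part 1: the systems, elementary transfers

The systems `SysE` differ from the systems `Sys` of project LQ in two points: the leading coefficients have only prime factors `≤ z` (instead of being `≤ z`), and the scales
satisfy `X ≤ H_i ≤ 2 ^ (16 z) X` (instead of `≤ z X`).
-/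

set_option autoImplicit false
set_option linter.unusedSectionVars false

namespace Pool.Agent.Q145.LE

open Finset Filter
open Pool.Agent.Q145.SZ Pool.Agent.Q145.LQ

/-- the ratio of the scales -/
def Uz (z : ℕ) : ℕ := 2 ^ (16 * z)

lemma Uz_pos (z : ℕ) : 0 < Uz z := Nat.pos_of_ne_zero (by unfold Uz; positivity)

lemma le_Uz (z : ℕ) : z ≤ Uz z := by
  unfold Uz
  have : z < 2 ^ z := Nat.lt_two_pow_self
  exact this.le.trans (Nat.pow_le_pow_right (by norm_num) (by omega))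

lemma Uz_mono {z z' : ℕ} (h : z ≤ z') : Uz z ≤ Uz z' := Nat.pow_le_pow_right (by norm_num) (by omega)

lemma log_Uz (z : ℕ) : Real.log (Uz z) ≤ 12 * z := by
  unfold Uz
  push_cast
  rw [Real.log_pow]
  push_cast
  have := Real.log_two_lt_d9
  have hz : (0 : ℝ) ≤ z := Nat.cast_nonneg z
  nlinarith

lemma log_Uz_nonneg (z : ℕ) : 0 ≤ Real.log (Uz z) := Real.log_natCast_nonneg _

lemma Uz_le_exp (z : ℕ) : (Uz z : ℝ) ≤ Real.exp (12 * z) := by
  rw [← Real.log_le_iff_le_exp (by exact_mod_cast Uz_pos z)]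
  exact log_Uz z

/-- the systems: degrees `1, ..., d`, leading coefficients with all prime factors `≤ z`, scales `X ≤ H_i ≤ 2 ^ (16 z) X`, values in `(5 H_i / 4, 2 H_i]` -/
structure SysE (d z Y X : ℕ) {K : ℕ} (H : Fin K → ℕ) (q : Fin K → Polynomial ℤ) : Prop where
  deg : ∀ i, 1 ≤ (q i).natDegree ∧ (q i).natDegree ≤ d
  lead : ∀ i, ∀ p : ℕ, p.Prime → z < p → ¬ (p : ℤ) ∣ (q i).leadingCoeff
  scale : ∀ i, X ≤ H i ∧ H i ≤ Uz z * X
  val : ∀ i, ∀ n ∈ Ioc Y (2 * Y), 5 * (H i : ℤ) < 4 * (q i).eval (n : ℤ) ∧ (q i).eval (n : ℤ) ≤ 2 * H i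

lemma SysE.mono {d z z' Y X K : ℕ} {H : Fin K → ℕ} {q : Fin K → Polynomial ℤ} (h : SysE d z Y X H q) (hz : z ≤ z') : SysE d z' Y X H q where
  deg := h.deg
  lead := fun i p hp hpz => h.lead i p hp (by omega)
  scale := fun i => ⟨(h.scale i).1, (h.scale i).2.trans (Nat.mul_le_mul_right _ (Uz_mono hz))⟩
  val := h.val

lemma SysE.nonneg {d z Y X K : ℕ} {H : Fin K → ℕ} {q : Fin K → Polynomial ℤ} (h : SysE d z Y X H q) (i : Fin K) {n : ℕ} (hn : n ∈ Ioc Y (2 * Y)) :
    0 ≤ (q i).eval (n : ℤ) := by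
  have := (h.val i n hn).1
  have h2 : (0 : ℤ) ≤ H i := by positivity
  linarith

lemma SysE.mem {d z Y X K : ℕ} {H : Fin K → ℕ} {q : Fin K → Polynomial ℤ} (h : SysE d z Y X H q) (i : Fin K) {n : ℕ} (hn : n ∈ Ioc Y (2 * Y)) :
    vq (q i) n ∈ Ioc (H i) (2 * H i) ∧ 5 * H i < 4 * vq (q i) n := by
  have h1 := h.val i n hn
  have h0 := h.nonneg i hn
  have e : ((vq (q i) n : ℕ) : ℤ) = (q i).eval (n : ℤ) := Int.toNat_of_nonneg h0
  rw [← e] at h1
  rw [mem_Ioc]
  omega

/-- the weighted count and the count -/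
theorem wcbE {d z Y X K : ℕ} {H : Fin K → ℕ} {q : Fin K → Polynomial ℤ} {s : Fin K → ℕ} (hX : 3 ≤ X) (hS : SysE d z Y X H q) (hs : ∀ i, s i ∈ Icc 1 (H i)) :
    (cntQ Y q s : ℝ) * ∏ i, Real.log (H i) ≤ wcQ Y q s ∧ wcQ Y q s ≤ cntQ Y q s * ∏ i, Real.log (3 * H i) := by
  classical
  have hH3 : ∀ i, 3 ≤ H i := fun i => hX.trans (hS.scale i).1
  have hH : ∀ i, (3 : ℝ) ≤ (H i : ℝ) := fun i => by exact_mod_cast hH3 i
  have hv : ∀ n ∈ Ioc Y (2 * Y), ∀ i, H i ≤ vq (q i) n + s i ∧ vq (q i) n + s i ≤ 3 * H i := by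
    intro n hn i
    have h1 := hS.val i n hn
    have h2 := mem_Icc.1 (hs i)
    have h3 := hH3 i
    unfold vq
    have h4 : 0 ≤ (q i).eval (n : ℤ) := by omega
    have h5 : (((q i).eval (n : ℤ)).toNat : ℤ) = (q i).eval (n : ℤ) := Int.toNat_of_nonneg h4
    omega
  have key : ∀ n ∈ Ioc Y (2 * Y),
      (if ∀ i, (vq (q i) n + s i).Prime then ∏ i, Real.log (H i) else 0) ≤
        ∏ i, wt (vq (q i) n + s i) ∧
      ∏ i, wt (vq (q i) n + s i) ≤
        (if ∀ i, (vq (q i) n + s i).Prime then ∏ i, Real.log (3 * H i) else 0) := by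
    intro n hn
    have hb := hv n hn
    split_ifs with h
    · have hc : ∏ i, wt (vq (q i) n + s i) = ∏ i, Real.log ((vq (q i) n + s i : ℕ) : ℝ) :=
        prod_congr rfl fun i _ => by
          unfold wt
          rw [if_pos (h i)]
      rw [hc]
      have hv1 : ∀ i, (H i : ℝ) ≤ ((vq (q i) n + s i : ℕ) : ℝ) := fun i => by
        exact_mod_cast (hb i).1
      have hv2 : ∀ i, ((vq (q i) n + s i : ℕ) : ℝ) ≤ 3 * (H i : ℝ) := fun i => by
        exact_mod_cast (hb i).2
      constructor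
      · exact prod_le_prod (fun i _ => Real.log_nonneg (by linarith [hH i])) fun i _ =>
          Real.log_le_log (by linarith [hH i]) (hv1 i)
      · exact prod_le_prod (fun i _ => Real.log_natCast_nonneg _) fun i _ =>
          Real.log_le_log (by linarith [hH i, hv1 i]) (hv2 i)
    · push Not at h
      obtain ⟨i, hi⟩ := h
      have : ∏ i, wt (vq (q i) n + s i) = 0 :=
        prod_eq_zero (mem_univ i) (by unfold wt; rw [if_neg hi])
      rw [this]
      exact ⟨le_rfl, le_rfl⟩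
  have e : ∀ x : ℝ, (cntQ Y q s : ℝ) * x = ∑ n ∈ Ioc Y (2 * Y),
      (if ∀ i, (vq (q i) n + s i).Prime then x else 0) := by
    intro x
    unfold cntQ
    rw [← sum_filter, sum_const, nsmul_eq_mul]
  rw [e, e]
  unfold wcQ
  exact ⟨sum_le_sum fun n hn => (key n hn).1, sum_le_sum fun n hn => (key n hn).2⟩

/-- admissibility and the classes modulo `PW z` -/
theorem admE {d z Y X K : ℕ} {H : Fin K → ℕ} {q : Fin K → Polynomial ℤ} (hS : SysE d z Y X H q) (s : Fin K → ℕ) (hK : d * K + 1 ≤ z) :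
    AdmQ q s ↔ (GQ q (fun i => (s i : ZMod (PW z)))).Nonempty := by
  classical
  rw [← Finset.card_pos, Pool.Agent.Q151.LQ.card_GQ, Pool.Agent.Q151.LQ.cG_PW]
  rw [Nat.pos_iff_ne_zero, Finset.prod_ne_zero_iff]
  constructor
  · intro h p hp
    rw [mem_filter] at hp
    have := h p hp.2
    omega
  · intro h p hp
    by_cases hz : p ≤ z
    · have := h p (mem_filter.2 ⟨mem_Icc.2 ⟨hp.one_lt.le, hz⟩, hp⟩)
      omega
    · have := Pool.Agent.Q151.LQ.nuQ_le_mul (d := d) q s hp (fun i =>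
        ⟨(hS.deg i).1, (hS.deg i).2, hS.lead i p hp (not_le.1 hz)⟩)
      omega

open Pool.Agent.Q58.SZ (card_cls_le le_card_cls)
open Pool.Agent.Q210.LQ (card_SbQ mem_SbQ ratio_prod)

open Classical in
/-- a sum over the admissible tuples -/
theorem sum_ATE {d z Y X K : ℕ} {H : Fin K → ℕ} {q : Fin K → Polynomial ℤ} (hK : d * K + 1 ≤ z)
    (hs : SysE d z Y X H q) (E : (Fin K → ℕ) → Prop) :
    (((ATQ H q).filter fun s => E s).card : ℝ) =
      ∑ b ∈ AdQ (PW z) q, (((SbQ H b).filter fun s => E s).card : ℝ) := by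
  rw [← Nat.cast_sum, ← Finset.card_biUnion]
  · congr 2
    ext s
    simp only [Finset.mem_filter, Finset.mem_biUnion, ATQ, Fintype.mem_piFinset,
      AdQ, Finset.mem_univ, true_and, mem_SbQ]
    constructor
    · rintro ⟨⟨h1, h2⟩, h3⟩
      exact ⟨_, (admE hs s hK).1 h2, ⟨h1, rfl⟩, h3⟩
    · rintro ⟨b, hb, ⟨h1, rfl⟩, h3⟩
      exact ⟨⟨h1, (admE hs s hK).2 hb⟩, h3⟩
  · intro b _ b' _ hbb'
    rw [Function.onFun, Finset.disjoint_left]
    intro s hs hs'
    rw [Finset.mem_filter, mem_SbQ] at hs hs'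
    exact hbb' (hs.1.2.symm.trans hs'.1.2)

open Classical in
/-- from the classes to all admissible constants -/
theorem transE {d z Yn X K : ℕ} {H : Fin K → ℕ} {q : Fin K → Polynomial ℤ} {E : (Fin K → ℕ) → Prop} {η : ℝ} (hK : d * K + 1 ≤ z)
    (hs : SysE d z Yn X H q) (hX : 8 * (K + 1) * PW z ≤ X)
    (h : ∑ b ∈ AdQ (PW z) q, (((SbQ H b).filter fun s => E s).card : ℝ) / (SbQ H b).card ≤ η * (AdQ (PW z) q).card) :
    (((ATQ H q).filter fun s => E s).card : ℝ) ≤ 2 * η * (ATQ H q).card := by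
  have hW : (0 : ℝ) < PW z := by exact_mod_cast Nat.pos_of_ne_zero (NeZero.ne (PW z))
  set Y : ℝ := (X : ℝ) / PW z with hYdef
  have hY : 8 * ((K : ℝ) + 1) ≤ Y := by
    rw [hYdef, le_div_iff₀ hW]
    exact_mod_cast hX
  have hK0 : (0 : ℝ) ≤ K := Nat.cast_nonneg K
  set y : Fin K → ℝ := fun i => (H i : ℝ) / PW z with hy
  have hyY : ∀ i, Y ≤ y i := by
    intro i
    rw [hYdef, hy]
    apply div_le_div_of_nonneg_right _ hW.le
    exact_mod_cast (hs.scale i).1
  have hratio := ratio_prod hY hyY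
  set B : ℝ := ∏ i, (y i + 1) with hB
  set A : ℝ := ∏ i, (y i - 1) with hA
  have hA0 : 0 < A := Finset.prod_pos fun i _ => by linarith [hyY i]
  have hB0 : 0 < B := Finset.prod_pos fun i _ => by linarith [hyY i]
  have hSle : ∀ b : Fin K → ZMod (PW z), ((SbQ H b).card : ℝ) ≤ B := by
    intro b
    rw [card_SbQ]
    exact Finset.prod_le_prod (fun _ _ => Nat.cast_nonneg _) fun i _ => card_cls_le (H i) (b i)
  have hSge : ∀ b : Fin K → ZMod (PW z), A ≤ ((SbQ H b).card : ℝ) := by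
    intro b
    rw [card_SbQ]
    exact Finset.prod_le_prod (fun i _ => by linarith [hyY i]) fun i _ => le_card_cls (H i) (b i)
  have h0 : 0 ≤ η * (AdQ (PW z) q).card :=
    le_trans (Finset.sum_nonneg fun b _ => by positivity) h
  have h1 : (((ATQ H q).filter fun s => E s).card : ℝ) ≤ B * (η * (AdQ (PW z) q).card) := by
    rw [sum_ATE hK hs E]
    refine le_trans ?_ (mul_le_mul_of_nonneg_left h hB0.le)
    rw [Finset.mul_sum]
    refine Finset.sum_le_sum fun b _ => ?_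
    have hSpos : (0 : ℝ) < (SbQ H b).card := lt_of_lt_of_le hA0 (hSge b)
    rw [mul_div_assoc', le_div_iff₀ hSpos, mul_comm]
    exact mul_le_mul_of_nonneg_right (hSle b) (Nat.cast_nonneg _)
  have e1 := sum_ATE hK hs (fun _ => True)
  simp only [Finset.filter_true] at e1
  have h2 : A * (AdQ (PW z) q).card ≤ ((ATQ H q).card : ℝ) := by
    rw [e1]
    calc A * (AdQ (PW z) q).card = ∑ _b ∈ AdQ (PW z) q, A := by
          rw [Finset.sum_const, nsmul_eq_mul, mul_comm]
      _ ≤ ∑ b ∈ AdQ (PW z) q, ((SbQ H b).card : ℝ) :=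
        Finset.sum_le_sum fun b _ => hSge b
  by_cases hη : 0 ≤ η
  · calc (((ATQ H q).filter fun s => E s).card : ℝ)
        ≤ B * (η * (AdQ (PW z) q).card) := h1
      _ ≤ 2 * A * (η * (AdQ (PW z) q).card) := mul_le_mul_of_nonneg_right hratio h0
      _ = 2 * η * (A * (AdQ (PW z) q).card) := by ring
      _ ≤ 2 * η * (ATQ H q).card := mul_le_mul_of_nonneg_left h2 (by linarith)
  · push Not at hη
    have hAd : ((AdQ (PW z) q).card : ℝ) = 0 := by
      have h3 : (0 : ℝ) ≤ (AdQ (PW z) q).card := Nat.cast_nonneg _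
      nlinarith
    have hAT : ((ATQ H q).card : ℝ) = 0 := by
      rw [e1]
      have : AdQ (PW z) q = ∅ := by
        rw [← Finset.card_eq_zero]
        exact_mod_cast hAd
      rw [this, Finset.sum_empty]
    rw [hAT, mul_zero]
    have h4 : (((ATQ H q).filter fun s => E s).card : ℝ) ≤ (ATQ H q).card := by
      exact_mod_cast Finset.card_filter_le _ _
    linarith

end Pool.Agent.Q145.LE
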