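import Pool.Agent.Q145.LE.Sys
import Pool.Agent.Q151.LQ.TAILQ
import Pool.Agent.Q151.LQ.LMQ
import Pool.Agent.Q145.LS.Sq2

/-!
# Project LE: the medium primes (adapted from `Pool/Agent/Q151/LQ/VARQ.lean`, `TAILQ.lean`)
-/

set_option autoImplicit false

namespace Pool.Agent.Q145.LE

open Finset Filter
open Pool.Agent.Q145.SZ Pool.Agent.Q145.LQ Pool.Agent.Q151.LQ

theorem var_genE {W : ℕ} [NeZero W] (hLM : S_LMQ) {C : ℝ} (hC : 0 < C) (hSQ : ∀ z w : ℕ, 2 ≤ z →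
    ∑ p ∈ (Ioc z w).filter Nat.Prime, 1 / (p : ℝ) ^ 2 ≤ C / ((z : ℝ) * Real.log z))
    (d z X Y K : ℕ) (H : Fin K → ℕ) (q : Fin K → Polynomial ℤ) (hz : 2 ≤ z) (hK : 8 * d * (K + 1) ≤ z)
    (hH : ∀ i, X ≤ H i)
    (hq : ∀ i, 1 ≤ (q i).natDegree ∧ (q i).natDegree ≤ d ∧ ∀ p : ℕ, p.Prime → z < p → ¬ (p : ℤ) ∣ (q i).leadingCoeff)
    (hX : 16 * (K + 1) * (Y : ℝ) ^ 4 * W ≤ X)
    (hco : ∀ p : ℕ, p.Prime → z < p → W.Coprime p) (b : Fin K → ZMod W) :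
    ∑ s ∈ SbQ H b, (∑ p ∈ (Ioc z Y).filter Nat.Prime, (locQ q s p - 1)) ^ 2 ≤
      (C / Real.log z + 16 * (K + 1) * (Y : ℝ) ^ 4 * W / X) * (SbQ H b).card ∧
    ∑ s ∈ SbQ H b, ∑ p ∈ (Ioc z Y).filter Nat.Prime, (locQ q s p - 1) ^ 2 ≤
      (C / Real.log z + 16 * (K + 1) * (Y : ℝ) ^ 4 * W / X) * (SbQ H b).card := by
  set P := (Ioc z Y).filter Nat.Prime with hP
  have hW0 : (0 : ℝ) < W := by exact_mod_cast Nat.pos_of_ne_zero (NeZero.ne W)
  have hmem : ∀ p ∈ P, p.Prime ∧ z < p ∧ p ≤ Y ∧ 8 * d * (K + 1) ≤ p ∧ W.Coprime p ∧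
      ∀ i, 1 ≤ (q i).natDegree ∧ (q i).natDegree ≤ d ∧ ¬ (p : ℤ) ∣ (q i).leadingCoeff := by
    intro p hp
    rw [hP, mem_filter, mem_Ioc] at hp
    exact ⟨hp.2, hp.1.1, hp.1.2, by omega, hco p hp.2 hp.1.1, fun i => ⟨(hq i).1, (hq i).2.1, (hq i).2.2 p hp.2 hp.1.1⟩⟩
  have hlog : 0 < Real.log z := Real.log_pos (by exact_mod_cast (show 1 < z by omega))
  set N : ℝ := ((SbQ H b).card : ℝ) with hN
  have hN0 : 0 ≤ N := Nat.cast_nonneg _
  set T : ℝ := (X : ℝ) / W with hT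
  rcases P.eq_empty_or_nonempty with hPe | ⟨p0, hp0⟩
  · rw [hPe]
    simp only [sum_empty]
    have h1 : 0 ≤ (C / Real.log z + 16 * (K + 1) * (Y : ℝ) ^ 4 * W / X) * N := by positivity
    constructor
    · simpa using h1
    · simpa using h1
  have hY1 : (1 : ℝ) ≤ Y := by
    have := hmem p0 hp0
    have h2 := this.1.pos
    exact_mod_cast (show 1 ≤ Y by omega)
  have hTY : 16 * (K + 1) * (Y : ℝ) ^ 4 ≤ T := by
    rw [hT, le_div_iff₀ hW0]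
    exact hX
  have hT0 : 0 < T := lt_of_lt_of_le (by positivity) hTY
  have hY2 : (Y : ℝ) ^ 2 ≤ (Y : ℝ) ^ 4 := pow_le_pow_right₀ hY1 (by norm_num)
  have hY12 : (Y : ℝ) ≤ (Y : ℝ) ^ 2 := by nlinarith
  have hKr : (0 : ℝ) ≤ K := Nat.cast_nonneg _
  have hdr : (0 : ℝ) ≤ d := Nat.cast_nonneg _
  have hcard : (P.card : ℝ) ≤ Y := by
    have h1 : P.card ≤ (Ioc z Y).card := card_filter_le _ _
    rw [Nat.card_Ioc] at h1
    exact_mod_cast (show P.card ≤ Y by omega)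
  have hX0 : 0 < (X : ℝ) := by
    have : T * W = X := by rw [hT]; field_simp
    rw [← this]
    positivity
  have hsq : ∑ p ∈ P, 4 * (d : ℝ) * K / (p : ℝ) ^ 2 ≤ C / Real.log z := by
    have h1 : ∑ p ∈ P, 4 * (d : ℝ) * K / (p : ℝ) ^ 2 =
        4 * (d : ℝ) * K * ∑ p ∈ P, 1 / (p : ℝ) ^ 2 := by
      rw [mul_sum]
      exact sum_congr rfl fun _ _ => by ring
    rw [h1]
    have h2 := hSQ z Y hz
    have hz0 : (0 : ℝ) < z := by exact_mod_cast (show 0 < z by omega)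
    have h3 : 4 * (d : ℝ) * K ≤ z := by
      have : 8 * (d : ℝ) * ((K : ℝ) + 1) ≤ z := by exact_mod_cast hK
      nlinarith [mul_nonneg hdr hKr]
    calc 4 * (d : ℝ) * K * ∑ p ∈ P, 1 / (p : ℝ) ^ 2 ≤
          (z : ℝ) * (C / ((z : ℝ) * Real.log z)) := by
            refine mul_le_mul h3 h2 (sum_nonneg fun _ _ => by positivity) (by positivity)
      _ = C / Real.log z := by field_simp
  have hWX : (W : ℝ) / X = 1 / T := by
    rw [hT]
    field_simp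
  have hrhs : C / Real.log z + 16 * (K + 1) * (Y : ℝ) ^ 4 * W / X =
      C / Real.log z + 16 * (K + 1) * (Y : ℝ) ^ 4 / T := by
    rw [mul_div_assoc _ (W : ℝ), hWX]
    ring
  rw [hrhs]
  have hd : ∀ p ∈ P, ∑ s ∈ SbQ H b, (locQ q s p - 1) ^ 2 ≤
      4 * (d : ℝ) * K / (p : ℝ) ^ 2 * N + 8 * K * (Y : ℝ) ^ 2 / T * N := by
    intro p hp
    obtain ⟨h1, h2, h3, h4, h5, hap⟩ := hmem p hp
    have h3' : (p : ℝ) ≤ Y := by exact_mod_cast h3
    have h6 : 4 * (K + 1) * (p : ℝ) ≤ T := by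
      refine le_trans ?_ hTY
      have : (p : ℝ) ≤ (Y : ℝ) ^ 4 := by linarith
      nlinarith
    have h7 := diag hLM H q hH h1 hap h4 h5 h6 b
    rw [← hT, ← hN] at h7
    refine h7.trans ?_
    rw [add_mul]
    have h8 : 8 * (K : ℝ) * p / T ≤ 8 * K * (Y : ℝ) ^ 2 / T := by
      gcongr
      linarith
    have h9 := mul_le_mul_of_nonneg_right h8 hN0
    linarith
  have ho : ∀ p ∈ P, ∀ p' ∈ P, ∑ s ∈ SbQ H b, (locQ q s p - 1) * (locQ q s p' - 1) ≤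
      (if p = p' then 4 * (d : ℝ) * K / (p : ℝ) ^ 2 * N else 0) +
        8 * K * (Y : ℝ) ^ 2 / T * N := by
    intro p hp p' hp'
    split_ifs with h
    · subst h
      have := hd p hp
      simpa only [← sq] using this
    · obtain ⟨h1, h2, h3, h4, h5, hap⟩ := hmem p hp
      obtain ⟨k1, k2, k3, k4, k5, kap⟩ := hmem p' hp'
      have h3' : (p : ℝ) ≤ Y := by exact_mod_cast h3
      have k3' : (p' : ℝ) ≤ Y := by exact_mod_cast k3
      have hpp : (p : ℝ) * p' ≤ (Y : ℝ) ^ 2 := by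
        rw [sq]
        gcongr
      have h6 : 4 * (K + 1) * ((p : ℝ) * p') ≤ T := by
        refine le_trans ?_ hTY
        have : (p : ℝ) * p' ≤ (Y : ℝ) ^ 4 := by linarith
        have h0 : (0 : ℝ) ≤ (p : ℝ) * p' := by positivity
        nlinarith
      have h7 := offdiag hLM H q hH h1 hap h4 h5 k1 kap k4 k5 h h6 b
      refine h7.trans ?_
      rw [zero_add]
      have h8 : 8 * (K : ℝ) * ((p : ℝ) * p') / T ≤ 8 * K * (Y : ℝ) ^ 2 / T := by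
        gcongr
      exact mul_le_mul_of_nonneg_right h8 hN0
  constructor
  · have h1 : ∑ s ∈ SbQ H b, (∑ p ∈ P, (locQ q s p - 1)) ^ 2 =
        ∑ p ∈ P, ∑ p' ∈ P, ∑ s ∈ SbQ H b, (locQ q s p - 1) * (locQ q s p' - 1) := by
      have h2 : ∀ s : Fin K → ℕ, (∑ p ∈ P, (locQ q s p - 1)) ^ 2 =
          ∑ p ∈ P, ∑ p' ∈ P, (locQ q s p - 1) * (locQ q s p' - 1) := by
        intro s
        rw [sq, sum_mul_sum]
      simp only [h2]
      rw [sum_comm]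
      refine sum_congr rfl fun p _ => ?_
      rw [sum_comm]
    rw [h1]
    refine (sum_le_sum fun p hp => sum_le_sum fun p' hp' => ho p hp p' hp').trans ?_
    simp only [sum_add_distrib, sum_ite_eq, sum_const, nsmul_eq_mul]
    have h2 : ∑ p ∈ P, (if p ∈ P then 4 * (d : ℝ) * K / (p : ℝ) ^ 2 * N else 0) =
        (∑ p ∈ P, 4 * (d : ℝ) * K / (p : ℝ) ^ 2) * N := by
      rw [sum_mul]
      exact sum_congr rfl fun p hp => if_pos hp
    rw [h2]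
    have h3 : (P.card : ℝ) * (P.card * (8 * K * (Y : ℝ) ^ 2 / T * N)) ≤
        16 * (K + 1) * (Y : ℝ) ^ 4 / T * N := by
      calc (P.card : ℝ) * (P.card * (8 * K * (Y : ℝ) ^ 2 / T * N)) ≤
            Y * (Y * (8 * K * (Y : ℝ) ^ 2 / T * N)) := by gcongr
        _ = 8 * K * (Y : ℝ) ^ 4 / T * N := by ring
        _ ≤ 16 * (K + 1) * (Y : ℝ) ^ 4 / T * N := by
          refine mul_le_mul_of_nonneg_right ?_ hN0
          gcongr
          · norm_num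
          · linarith
    have h4 := mul_le_mul_of_nonneg_right hsq hN0
    rw [add_mul]
    linarith
  · rw [sum_comm]
    refine (sum_le_sum hd).trans ?_
    rw [sum_add_distrib, ← sum_mul, sum_const, nsmul_eq_mul, add_mul]
    have h3 : (P.card : ℝ) * (8 * K * (Y : ℝ) ^ 2 / T * N) ≤
        16 * (K + 1) * (Y : ℝ) ^ 4 / T * N := by
      calc (P.card : ℝ) * (8 * K * (Y : ℝ) ^ 2 / T * N) ≤
            Y * (8 * K * (Y : ℝ) ^ 2 / T * N) := by gcongr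
        _ ≤ (Y : ℝ) ^ 2 * (8 * K * (Y : ℝ) ^ 2 / T * N) := by gcongr
        _ = 8 * K * (Y : ℝ) ^ 4 / T * N := by ring
        _ ≤ 16 * (K + 1) * (Y : ℝ) ^ 4 / T * N := by
          refine mul_le_mul_of_nonneg_right ?_ hN0
          gcongr
          · norm_num
          · linarith
    have h4 := mul_le_mul_of_nonneg_right hsq hN0
    linarith


/-- conclusion of the variance bound -/
theorem varE : ∃ C : ℝ, 0 < C ∧ ∀ (d z w Y X K : ℕ) (H : Fin K → ℕ) (q : Fin K → Polynomial ℤ), 2 ≤ z → 8 * d * (K + 1) ≤ z → SysE d z Y X H q → 16 * (K + 1) * (w : ℝ) ^ 4 * PW z ≤ X →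
  ∀ b : Fin K → ZMod (PW z),
  ∑ s ∈ SbQ H b, (∑ p ∈ (Ioc z w).filter Nat.Prime, (locQ q s p - 1)) ^ 2 ≤ (C / Real.log z + 16 * (K + 1) * (w : ℝ) ^ 4 * PW z / X) * (SbQ H b).card ∧
  ∑ s ∈ SbQ H b, ∑ p ∈ (Ioc z w).filter Nat.Prime, (locQ q s p - 1) ^ 2 ≤ (C / Real.log z + 16 * (K + 1) * (w : ℝ) ^ 4 * PW z / X) * (SbQ H b).card := by
  obtain ⟨C, hC, h⟩ := Pool.Agent.Q145.LS.t_SQ2
  exact ⟨C, hC, fun d z w Y X K H q hz hK hS hX b => var_genE Pool.Agent.Q145.LQ.t_LMQ hC (fun z w hz => (h z w hz).1) d z X w K H q hz hK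
    (fun i => (hS.scale i).1) (fun i => ⟨(hS.deg i).1, (hS.deg i).2, hS.lead i⟩) hX
    (fun p hp hzp => Pool.Agent.Q261.SZ.coprime_PW hp hzp) b⟩

open Classical in
/-- the series truncated at `w` and at `z` -/
def S_TAILE : Prop := ∀ ε : ℝ, 0 < ε → ∃ (C : ℝ) (X₀ z₀ : ℕ), 0 < C ∧ ∀ (d z w Y X K : ℕ) (H : Fin K → ℕ) (q : Fin K → Polynomial ℤ), X₀ ≤ X → z₀ ≤ z → 1 ≤ d → 8 * d * (K + 1) ≤ z → SysE d z Y X H q →
  (z : ℝ) ≤ Real.log X → (PW z : ℝ) ^ 20 ≤ X → z ≤ w → (w : ℝ) ^ 20 ≤ X → ∀ b : Fin K → ZMod (PW z),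
  (((SbQ H b).filter fun s => ¬ (|singPQ q s w - singPQ q s z| ≤ ε * singPQ q s z)).card : ℝ) ≤ C / Real.log z * (SbQ H b).card

theorem good_caseE {d K : ℕ} (q : Fin K → Polynomial ℤ) (s : Fin K → ℕ) {z w : ℕ} {δ : ℝ}
    (hδ : δ ≤ 1 / 8) (hzw : z ≤ w) (hK : 8 * d * (K + 1) ≤ z)
    (hq : ∀ i, 1 ≤ (q i).natDegree ∧ (q i).natDegree ≤ d ∧ ∀ p : ℕ, p.Prime → z < p → ¬ (p : ℤ) ∣ (q i).leadingCoeff)
    (h1 : |∑ p ∈ (Ioc z w).filter Nat.Prime, (locQ q s p - 1)| ≤ δ)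
    (h2 : ∑ p ∈ (Ioc z w).filter Nat.Prime, (locQ q s p - 1) ^ 2 ≤ δ) :
    |singPQ q s w - singPQ q s z| ≤ 8 * δ * singPQ q s z := by
  have hz0 := singPQ_nonneg q s z
  obtain ⟨P, hP⟩ : ∃ P : Finset ℕ, P = (Ioc z w).filter Nat.Prime := ⟨_, rfl⟩
  rw [← hP] at h1 h2
  have hloc : ∀ p ∈ P, 0 < locQ q s p ∧ |locQ q s p - 1| ≤ 1 / 2 := by
    intro p hp
    rw [hP, mem_filter, mem_Ioc] at hp
    obtain ⟨g1, g2⟩ := locQ_bds (d := d) q s hp.2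
      (fun i => ⟨(hq i).1, (hq i).2.1, (hq i).2.2 p hp.2 hp.1.1⟩) (by omega)
    refine ⟨by linarith, ?_⟩
    rw [abs_le]
    constructor <;> linarith
  rw [singPQ_split q s hzw, ← hP]
  obtain ⟨t, ht⟩ : ∃ t : ℝ, t = ∑ p ∈ P, Real.log (locQ q s p) := ⟨_, rfl⟩
  have hexp : ∏ p ∈ P, locQ q s p = Real.exp t := by
    rw [ht, Real.exp_sum]
    exact prod_congr rfl fun p hp => (Real.exp_log (hloc p hp).1).symm
  have ht2 : t = ∑ p ∈ P, (Real.log (1 + (locQ q s p - 1)) - (locQ q s p - 1)) +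
      ∑ p ∈ P, (locQ q s p - 1) := by
    rw [ht, ← sum_add_distrib]
    refine sum_congr rfl fun p _ => ?_
    rw [sub_add_cancel]
    congr 1
    ring
  have ht3 : |∑ p ∈ P, (Real.log (1 + (locQ q s p - 1)) - (locQ q s p - 1))| ≤ 2 * δ := by
    refine (abs_sum_le_sum_abs _ _).trans ?_
    refine (sum_le_sum fun p hp => log_one_add_le (hloc p hp).2).trans ?_
    rw [← mul_sum]
    linarith
  have ht4 : |t| ≤ 3 * δ := by
    rw [ht2]
    have a2 := abs_add_le (∑ p ∈ P, (Real.log (1 + (locQ q s p - 1)) - (locQ q s p - 1)))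
      (∑ p ∈ P, (locQ q s p - 1))
    linarith
  have ht5 : |Real.exp t - 1| ≤ 2 * |t| := Real.abs_exp_sub_one_le (by linarith)
  have h6 : singPQ q s z * (∏ p ∈ P, locQ q s p) - singPQ q s z = singPQ q s z * (Real.exp t - 1) := by
    rw [hexp]
    ring
  rw [h6, abs_mul, abs_of_nonneg hz0, mul_comm]
  refine mul_le_mul_of_nonneg_right ?_ hz0
  have := abs_nonneg t
  linarith

theorem tail_genE {C₁ : ℝ} (hC : 0 < C₁) {δ : ℝ} (hδ0 : 0 < δ) (hδ : δ ≤ 1 / 8)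
    {W : ℕ} [NeZero W] (d z w X K : ℕ) (H : Fin K → ℕ) (q : Fin K → Polynomial ℤ)
    (hV : 16 * (K + 1) * (w : ℝ) ^ 4 * W ≤ X →
      ∀ b : Fin K → ZMod (W),
      ∑ s ∈ SbQ H b, (∑ p ∈ (Ioc z w).filter Nat.Prime, (locQ q s p - 1)) ^ 2 ≤ (C₁ / Real.log z + 16 * (K + 1) * (w : ℝ) ^ 4 * W / X) * (SbQ H b).card ∧
      ∑ s ∈ SbQ H b, ∑ p ∈ (Ioc z w).filter Nat.Prime, (locQ q s p - 1) ^ 2 ≤ (C₁ / Real.log z + 16 * (K + 1) * (w : ℝ) ^ 4 * W / X) * (SbQ H b).card)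
    (hX3 : 2 ^ 20 ≤ X) (hz : 2 ≤ z) (hd : 1 ≤ d)
    (hK : 8 * d * (K + 1) ≤ z)
    (hq : ∀ i, 1 ≤ (q i).natDegree ∧ (q i).natDegree ≤ d ∧ ∀ p : ℕ, p.Prime → z < p → ¬ (p : ℤ) ∣ (q i).leadingCoeff)
    (hzX : (z : ℝ) ≤ Real.log X) (hW : (W : ℝ) ^ 20 ≤ X) (hzw : z ≤ w) (hw : (w : ℝ) ^ 20 ≤ X)
    (b : Fin K → ZMod (W)) :
    (((SbQ H b).filter fun s => ¬ (|singPQ q s w - singPQ q s z| ≤ 8 * δ * singPQ q s z)).card : ℝ) ≤
      ((C₁ + 1) * (1 / δ ^ 2 + 1 / δ)) / Real.log z * (SbQ H b).card := by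
  have hX0 : (0 : ℝ) < X := by exact_mod_cast (show 0 < X by omega)
  obtain ⟨R, hR⟩ : ∃ R : ℝ, R = (X : ℝ) ^ (1 / 20 : ℝ) := ⟨_, rfl⟩
  have hR0 : 0 < R := by
    rw [hR]
    exact Real.rpow_pos_of_pos hX0 _
  have hR20 : R ^ 20 = X := by
    rw [hR, ← Real.rpow_natCast, ← Real.rpow_mul hX0.le]
    norm_num
  have hle : ∀ x : ℝ, x ^ 20 ≤ X → x ≤ R := by
    intro x hx
    refine le_of_pow_le_pow_left₀ (n := 20) (by norm_num) hR0.le ?_
    rw [hR20]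
    exact hx
  have hWR := hle _ hW
  have hwR := hle _ hw
  have hR2 : 2 ≤ R := hle 2 (by exact_mod_cast hX3)
  have hlogX : Real.log X ≤ 20 * R := by
    rw [← hR20, Real.log_pow]
    have := Real.log_le_self hR0.le
    push_cast
    linarith
  have hz2 : (2 : ℝ) ≤ z := by exact_mod_cast hz
  have hlogz : 0 < Real.log z := Real.log_pos (by linarith)
  have hlogzR : Real.log z ≤ 20 * R := by
    have := Real.log_le_self (show (0 : ℝ) ≤ z by linarith)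
    linarith
  have hKr : (0 : ℝ) ≤ K := Nat.cast_nonneg _
  have hd1 : (1 : ℝ) ≤ d := by exact_mod_cast hd
  have hKR : 16 * ((K : ℝ) + 1) ≤ 40 * R := by
    have h1 : 8 * (d : ℝ) * ((K : ℝ) + 1) ≤ z := by exact_mod_cast hK
    nlinarith
  have hW0 : (0 : ℝ) < W := by exact_mod_cast Nat.pos_of_ne_zero (NeZero.ne W)
  have hw0 : (0 : ℝ) ≤ w := Nat.cast_nonneg _
  have hE : 16 * (K + 1) * (w : ℝ) ^ 4 * W ≤ 40 * R ^ 6 := by
    calc 16 * ((K : ℝ) + 1) * (w : ℝ) ^ 4 * W ≤ (40 * R) * R ^ 4 * R := by gcongr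
      _ = 40 * R ^ 6 := by ring
  have hR12 : 4096 ≤ R ^ 12 := by
    calc (4096 : ℝ) = 2 ^ 12 := by norm_num
      _ ≤ R ^ 12 := pow_le_pow_left₀ (by norm_num) hR2 12
  have hEX : 16 * (K + 1) * (w : ℝ) ^ 4 * W ≤ X := by
    refine hE.trans ?_
    rw [← hR20]
    have h1 : R ^ 20 = R ^ 6 * (R ^ 12 * R ^ 2) := by ring
    have h2 : 1 ≤ R ^ 2 := one_le_pow₀ (by linarith)
    have h3 : 40 ≤ R ^ 12 * R ^ 2 := by nlinarith
    have h4 : 0 ≤ R ^ 6 := by positivity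
    rw [h1]
    nlinarith
  have hEL : 16 * (K + 1) * (w : ℝ) ^ 4 * W / X ≤ 1 / Real.log z := by
    calc 16 * (K + 1) * (w : ℝ) ^ 4 * W / X ≤ 40 * R ^ 6 / X := by gcongr
      _ ≤ 1 / (20 * R) := by
        rw [div_le_div_iff₀ hX0 (by positivity), ← hR20]
        have h1 : R ^ 20 = R ^ 7 * (R ^ 12 * R) := by ring
        have h2 : 40 * R ^ 6 * (20 * R) = R ^ 7 * 800 := by ring
        have h3 : 800 ≤ R ^ 12 * R := by nlinarith
        rw [one_mul, h1, h2]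
        exact mul_le_mul_of_nonneg_left h3 (by positivity)
      _ ≤ 1 / Real.log z := one_div_le_one_div_of_le hlogz hlogzR
  obtain ⟨v1, v2⟩ := hV hEX b
  obtain ⟨N, hN⟩ : ∃ N : ℝ, N = ((SbQ H b).card : ℝ) := ⟨_, rfl⟩
  rw [← hN] at v1 v2 ⊢
  have hN0 : 0 ≤ N := by rw [hN]; exact Nat.cast_nonneg _
  have hVE : (C₁ / Real.log z + 16 * (K + 1) * (w : ℝ) ^ 4 * W / X) * N ≤
      (C₁ + 1) / Real.log z * N := by
    refine mul_le_mul_of_nonneg_right ?_ hN0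
    rw [add_div]
    linarith
  classical
  obtain ⟨B2, hB2⟩ : ∃ B2 : Finset (Fin K → ℕ), B2 = (SbQ H b).filter fun s => δ < |∑ p ∈ (Ioc z w).filter Nat.Prime, (locQ q s p - 1)| := ⟨_, rfl⟩
  obtain ⟨B3, hB3⟩ : ∃ B3 : Finset (Fin K → ℕ), B3 = (SbQ H b).filter fun s => δ < ∑ p ∈ (Ioc z w).filter Nat.Prime, (locQ q s p - 1) ^ 2 := ⟨_, rfl⟩
  have hsub : (SbQ H b).filter (fun s => ¬ (|singPQ q s w - singPQ q s z| ≤ 8 * δ * singPQ q s z)) ⊆
      B2 ∪ B3 := by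
    intro s hs
    rw [mem_filter] at hs
    by_contra hcon
    rw [mem_union, not_or, hB2, hB3, mem_filter, mem_filter] at hcon
    obtain ⟨c2, c3⟩ := hcon
    have c2' : |∑ p ∈ (Ioc z w).filter Nat.Prime, (locQ q s p - 1)| ≤ δ := by
      by_contra h
      exact c2 ⟨hs.1, not_le.1 h⟩
    have c3' : ∑ p ∈ (Ioc z w).filter Nat.Prime, (locQ q s p - 1) ^ 2 ≤ δ := by
      by_contra h
      exact c3 ⟨hs.1, not_le.1 h⟩
    exact hs.2 (good_caseE q s hδ hzw hK hq c2' c3')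
  have hb2 : (B2.card : ℝ) ≤ (C₁ + 1) / δ ^ 2 / Real.log z * N := by
    have h1 : (B2.card : ℝ) * δ ^ 2 ≤
        ∑ s ∈ SbQ H b, (∑ p ∈ (Ioc z w).filter Nat.Prime, (locQ q s p - 1)) ^ 2 := by
      calc (B2.card : ℝ) * δ ^ 2 = ∑ _s ∈ B2, δ ^ 2 := by rw [sum_const, nsmul_eq_mul]
        _ ≤ ∑ s ∈ B2, (∑ p ∈ (Ioc z w).filter Nat.Prime, (locQ q s p - 1)) ^ 2 := by
          refine sum_le_sum fun s hs => ?_
          rw [hB2, mem_filter] at hs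
          rw [← sq_abs (∑ p ∈ (Ioc z w).filter Nat.Prime, (locQ q s p - 1))]
          exact pow_le_pow_left₀ hδ0.le hs.2.le 2
        _ ≤ _ := by
          rw [hB2]
          exact sum_le_sum_of_subset_of_nonneg (filter_subset _ _) fun _ _ _ => sq_nonneg _
    have h2 := h1.trans (v1.trans hVE)
    rw [← le_div_iff₀ (by positivity)] at h2
    refine h2.trans (le_of_eq ?_)
    field_simp
  have hb3 : (B3.card : ℝ) ≤ (C₁ + 1) / δ / Real.log z * N := by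
    have h1 : (B3.card : ℝ) * δ ≤
        ∑ s ∈ SbQ H b, ∑ p ∈ (Ioc z w).filter Nat.Prime, (locQ q s p - 1) ^ 2 := by
      calc (B3.card : ℝ) * δ = ∑ _s ∈ B3, δ := by rw [sum_const, nsmul_eq_mul]
        _ ≤ ∑ s ∈ B3, ∑ p ∈ (Ioc z w).filter Nat.Prime, (locQ q s p - 1) ^ 2 := by
          refine sum_le_sum fun s hs => ?_
          rw [hB3, mem_filter] at hs
          exact hs.2.le
        _ ≤ _ := by
          rw [hB3]
          exact sum_le_sum_of_subset_of_nonneg (filter_subset _ _) fun _ _ _ =>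
            sum_nonneg fun _ _ => sq_nonneg _
    have h2 := h1.trans (v2.trans hVE)
    rw [← le_div_iff₀ hδ0] at h2
    refine h2.trans (le_of_eq ?_)
    field_simp
  have hc : (((SbQ H b).filter fun s => ¬ (|singPQ q s w - singPQ q s z| ≤ 8 * δ * singPQ q s z)).card : ℝ) ≤
      B2.card + B3.card := by
    have h1 := card_le_card hsub
    have h3 := card_union_le B2 B3
    exact_mod_cast (h1.trans h3)
  calc _ ≤ (B2.card : ℝ) + B3.card := hc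
    _ ≤ (C₁ + 1) / δ ^ 2 / Real.log z * N +
        (C₁ + 1) / δ / Real.log z * N := by linarith
    _ = _ := by
      field_simp

/-- the medium primes -/
theorem tailE : S_TAILE := by
  classical
  intro ε hε
  obtain ⟨C₁, hC₁, hV⟩ := varE
  obtain ⟨δ, hδ⟩ : ∃ δ : ℝ, δ = min ε 1 / 8 := ⟨_, rfl⟩
  have hδ0 : 0 < δ := by
    rw [hδ]
    positivity
  have hδ1 : δ ≤ 1 / 8 := by
    rw [hδ]
    have := min_le_right ε 1
    linarith
  have hδε : 8 * δ ≤ ε := by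
    rw [hδ]
    have := min_le_left ε 1
    linarith
  refine ⟨(C₁ + 1) * (1 / δ ^ 2 + 1 / δ), 2 ^ 20, 2, by positivity, ?_⟩
  intro d z w Y X K H q hX hz hd hK hS hzX hW hzw hw b
  have h2 := tail_genE hC₁ hδ0 hδ1 (W := PW z) d z w X K H q (fun hY b' => hV d z w Y X K H q hz hK hS hY b')
    hX hz hd hK (fun i => ⟨(hS.deg i).1, (hS.deg i).2, hS.lead i⟩) hzX hW hzw hw b
  refine le_trans ?_ h2
  have h3 : (SbQ H b).filter (fun s => ¬ (|singPQ q s w - singPQ q s z| ≤ ε * singPQ q s z)) ⊆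
      (SbQ H b).filter (fun s => ¬ (|singPQ q s w - singPQ q s z| ≤ 8 * δ * singPQ q s z)) := by
    intro s hs
    rw [mem_filter] at hs ⊢
    refine ⟨hs.1, fun h => hs.2 (h.trans ?_)⟩
    exact mul_le_mul_of_nonneg_right hδε (singPQ_nonneg q s z)
  exact_mod_cast card_le_card h3


end Pool.Agent.Q145.LE
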